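import Pool.Agent.Q291.SB.Thin

set_option autoImplicit false

/-! Soft cuts with boundedly many expensive sites are thin. -/

open MeasureTheory Filter Topology Set Metric
open scoped ENNReal NNReal InnerProductSpace Real
open Pool.Agent.Q233.BN

namespace Pool.Agent.Q291.SB

variable {ι : Type} [DecidableEq ι] (P : Data ι)

/-- the soft cuts -/
def Soft (a0 : ℝ) : Prop :=
  ∀ ε : ℝ, 0 < ε → ∃ m : ℕ, ∀ F : Finset ι, ∃ B X : Finset ι, F ⊆ B ∧ Disjoint X F ∧
    X.card ≤ m ∧ (∀ x ∈ X, a0 ≤ |P.a x|) ∧ ∑ x ∈ B \ X, ‖ow P B x‖ ≤ ε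

theorem thin_of_soft {a0 : ℝ} (hs : Soft P a0) : Thin P a0 := by
  intro w hw hwt o ε hε
  obtain ⟨m, hm⟩ := hs (ε / 2) (by positivity)
  set δ : ℝ := ε / 2 / (m + 1) with hδ
  have hδ0 : 0 < δ := by positivity
  have h1 := (tendsto_order.1 hwt).2 δ hδ0
  rw [eventually_cofinite] at h1
  obtain ⟨B, X, hFB, hXF, hXm, hXa, hleak⟩ := hm (insert o h1.toFinset)
  refine ⟨B, hFB (Finset.mem_insert_self _ _), ?_⟩
  have hXw : ∀ x ∈ X, w x ≤ δ := by
    intro x hx
    by_contra hcon
    have h2 : x ∈ insert o h1.toFinset := by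
      rw [Finset.mem_insert, Set.Finite.mem_toFinset]
      right
      intro h3
      exact hcon h3.le
    exact (Finset.disjoint_left.1 hXF) hx h2
  set cost : ι → ℝ := fun x =>
    if a0 ≤ |P.a x| then min (w x) ‖ow P B x‖ else ‖ow P B x‖ with hcost
  have hcost0 : ∀ x, 0 ≤ cost x := by
    intro x
    simp only [hcost]
    split_ifs
    · exact le_min (hw x).le (norm_nonneg _)
    · exact norm_nonneg _
  have hcov : B ⊆ X ∪ (B \ X) := by
    intro x hx
    by_cases h : x ∈ X
    · exact Finset.mem_union_left _ h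
    · exact Finset.mem_union_right _ (Finset.mem_sdiff.2 ⟨hx, h⟩)
  calc ∑ x ∈ B, cost x ≤ ∑ x ∈ X ∪ (B \ X), cost x :=
        Finset.sum_le_sum_of_subset_of_nonneg hcov fun x _ _ => hcost0 x
    _ = ∑ x ∈ X, cost x + ∑ x ∈ B \ X, cost x := Finset.sum_union Finset.disjoint_sdiff
    _ ≤ ∑ x ∈ X, δ + ∑ x ∈ B \ X, ‖ow P B x‖ := by
        refine add_le_add (Finset.sum_le_sum fun x hx => ?_) (Finset.sum_le_sum fun x _ => ?_)
        · simp only [hcost]
          rw [if_pos (hXa x hx)]
          exact (min_le_left _ _).trans (hXw x hx)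
        · simp only [hcost]
          split_ifs
          · exact min_le_right _ _
          · exact le_rfl
    _ ≤ ε / 2 + ε / 2 := by
        refine add_le_add ?_ hleak
        rw [Finset.sum_const, nsmul_eq_mul]
        have h2 : (X.card : ℝ) ≤ m := by exact_mod_cast hXm
        calc (X.card : ℝ) * δ ≤ (m + 1) * δ :=
              mul_le_mul_of_nonneg_right (by linarith) hδ0.le
          _ = ε / 2 := by rw [hδ]; field_simp
    _ = ε := by ring

end Pool.Agent.Q291.SB
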