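import Pool.Agent.Q291.SB.Leak
import Pool.Agent.Q291.SB.Soft

set_option autoImplicit false

/-! Quasi-one-dimensional operators with hopping decaying faster than the power 3/2 have soft
cuts. -/

open Filter Topology Set
open scoped ENNReal
open Pool.Agent.Q233.BN

namespace Pool.Agent.Q291.SB

variable {ι Y : Type} [DecidableEq ι] [DecidableEq Y] (P : Data ι) {e : ι → ℤ × Y}

theorem card_end (n l : ℕ) :
    ((Finset.Icc (-(n : ℤ)) n).filter (fun p => ¬ l ≤ n - p.natAbs)).card ≤ 2 * l := by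
  have hcov : (Finset.Icc (-(n : ℤ)) n).filter (fun p => ¬ l ≤ n - p.natAbs) ⊆
      (Finset.range l).image (fun j : ℕ => (n : ℤ) - (j : ℤ)) ∪
        (Finset.range l).image (fun j : ℕ => (j : ℤ) - (n : ℤ)) := by
    intro p hp
    rw [Finset.mem_filter, Finset.mem_Icc] at hp
    obtain ⟨⟨h1, h2⟩, h3⟩ := hp
    rw [Finset.mem_union, Finset.mem_image, Finset.mem_image]
    rcases le_total 0 p with h | h
    · left
      exact ⟨n - p.natAbs, Finset.mem_range.2 (by omega), by omega⟩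
    · right
      exact ⟨n - p.natAbs, Finset.mem_range.2 (by omega), by omega⟩
  refine (Finset.card_le_card hcov).trans ((Finset.card_union_le _ _).trans ?_)
  have h1 := Finset.card_image_le (s := Finset.range l) (f := fun j : ℕ => (n : ℤ) - (j : ℤ))
  have h2 := Finset.card_image_le (s := Finset.range l) (f := fun j : ℕ => (j : ℤ) - (n : ℤ))
  rw [Finset.card_range] at h1 h2
  omega

theorem soft_of_decay (he : Function.Injective e) {k : Y × Y → ℝ} (hk0 : ∀ p, 0 ≤ k p)
    (hk : Summable k) {a b : ℝ} (ha : 1 / 2 < a) (hb : 1 < b)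
    (hT : ∀ x y, x ≠ y → ‖(P.T (ee x)) y‖ ≤
      k ((e x).2, (e y).2) * dk (a + b) (((e x).1 - (e y).1 : ℤ) : ℝ)) {a0 : ℝ}
    (hA : ∀ (l : ℕ) (Y' : Finset Y), ∃ n : ℕ, l ≤ n ∧ ∀ x, n ≤ (e x).1.natAbs + l →
      (e x).1.natAbs ≤ n → (e x).2 ∈ Y' → a0 ≤ |P.a x|) : Soft P a0 := by
  intro ε hε
  set c0 : ℝ := √(∑' q : ℤ, dk (a + a) q) with hc0
  have hc00 : 0 ≤ c0 := Real.sqrt_nonneg _
  set κ1 : ℝ := ∑' x, KK k x with hκ1
  set f : ℕ → ℝ := fun j => dk b j with hf
  have hf0 : ∀ j, 0 ≤ f j := fun j => (dk_pos _ _).le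
  have hfs : Summable f := dk_sum_nat hb
  have hKs := KK_summable hk
  obtain ⟨l, hl⟩ : ∃ l : ℕ, c0 * (2 * (∑' j, f (j + l)) * κ1) < ε / 3 := by
    have h1 : Tendsto (fun l => c0 * (2 * (∑' j, f (j + l)) * κ1)) atTop
        (𝓝 (c0 * (2 * 0 * κ1))) :=
      (((tendsto_sum_nat_add f).const_mul 2).mul_const κ1).const_mul c0
    have h2 : c0 * (2 * 0 * κ1) < ε / 3 := by
      have : c0 * (2 * 0 * κ1) = 0 := by ring
      rw [this]
      positivity
    exact ((tendsto_order.1 h1).2 _ h2).exists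
  set σ : ℝ := 2 * ∑' j, f (j + 0) with hσ
  have hσ0 : 0 ≤ σ := mul_nonneg zero_le_two (tsum_nonneg fun _ => hf0 _)
  obtain ⟨J, hJ⟩ : ∃ J : Finset Y, ∀ s : Finset Y, Disjoint s J →
      c0 * (σ * ∑ q ∈ s, KK k q) ≤ ε / 3 := by
    obtain ⟨J, hJ⟩ := summable_iff_vanishing_norm.1 hKs (ε / 3 / (c0 * σ + 1)) (by positivity)
    refine ⟨J, fun s hs => ?_⟩
    have h1 := (le_abs_self _).trans (hJ s hs).le
    have h2 : 0 ≤ ∑ q ∈ s, KK k q := Finset.sum_nonneg fun q _ => KK_nonneg hk0 q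
    calc c0 * (σ * ∑ q ∈ s, KK k q) = (c0 * σ) * ∑ q ∈ s, KK k q := by ring
      _ ≤ (c0 * σ + 1) * (ε / 3 / (c0 * σ + 1)) := by
          apply mul_le_mul (by linarith) h1 h2 (by positivity)
      _ = ε / 3 := by field_simp
  refine ⟨2 * l * J.card, fun F => ?_⟩
  set l' : ℕ := l + 1 + F.sup (fun x => (e x).1.natAbs) with hl'
  obtain ⟨n, hn, hna⟩ := hA l' J
  obtain ⟨L, hFL, hL⟩ := exists_L hk0 hk (ε := ε / 3 / ((c0 + 1) * (2 * n + 1))) (by positivity)
    (J ∪ F.image (fun x => (e x).2))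
  have hFsup : ∀ x ∈ F, (e x).1.natAbs ≤ F.sup (fun x => (e x).1.natAbs) := fun x hx =>
    Finset.le_sup (f := fun x => (e x).1.natAbs) hx
  set B := box he n L with hB
  set X := B.filter (fun x => ¬ l ≤ n - (e x).1.natAbs ∧ (e x).2 ∈ J) with hX
  refine ⟨B, X, ?_, ?_, ?_, ?_, ?_⟩
  · intro x hx
    rw [hB, mem_box]
    have h1 := hFsup x hx
    exact ⟨by omega, hFL (Finset.mem_union_right _ (Finset.mem_image.2 ⟨x, hx, rfl⟩))⟩
  · rw [Finset.disjoint_left]
    intro x hx hxF
    have h1 := hFsup x hxF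
    have h2 := (Finset.mem_filter.1 hx).2.1
    omega
  · have h1 : X.image e ⊆
        ((Finset.Icc (-(n : ℤ)) n).filter (fun p => ¬ l ≤ n - p.natAbs)) ×ˢ J := by
      intro z hz
      obtain ⟨x, hx, rfl⟩ := Finset.mem_image.1 hz
      obtain ⟨h2, h3, h4⟩ := Finset.mem_filter.1 hx
      rw [hB, mem_box] at h2
      rw [Finset.mem_product, Finset.mem_filter, Finset.mem_Icc]
      obtain ⟨h5, h6⟩ := h2
      exact ⟨⟨by omega, h3⟩, h4⟩
    have h2 := Finset.card_le_card h1
    rw [Finset.card_image_of_injective _ he, Finset.card_product] at h2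
    exact h2.trans (Nat.mul_le_mul_right _ (card_end n l))
  · intro x hx
    obtain ⟨h2, h3, h4⟩ := Finset.mem_filter.1 hx
    rw [hB, mem_box] at h2
    obtain ⟨h5, h6⟩ := h2
    exact hna x (by omega) h5 h4
  · have hle : ∑ x ∈ B \ X, ‖ow P B x‖ ≤
        c0 * (∑ x ∈ B \ X, f (n - (e x).1.natAbs) * KK k (e x).2 +
          ∑ x ∈ B \ X, KL k L (e x).2) := by
      rw [← Finset.sum_add_distrib, Finset.mul_sum]
      refine Finset.sum_le_sum fun x hx => ?_
      exact leak_le P he hk0 hk ha hb hT n L (Finset.mem_sdiff.1 hx).1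
    have hcov : B \ X ⊆ B.filter (fun x => l ≤ n - (e x).1.natAbs) ∪
        B.filter (fun x => (e x).2 ∉ J) := by
      intro x hx
      obtain ⟨h1, h2⟩ := Finset.mem_sdiff.1 hx
      rw [Finset.mem_union, Finset.mem_filter, Finset.mem_filter]
      by_cases h3 : l ≤ n - (e x).1.natAbs
      · exact Or.inl ⟨h1, h3⟩
      · right
        refine ⟨h1, fun h4 => h2 ?_⟩
        exact Finset.mem_filter.2 ⟨h1, h3, h4⟩
    have hterm0 : ∀ x, 0 ≤ f (n - (e x).1.natAbs) * KK k (e x).2 := fun x =>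
      mul_nonneg (hf0 _) (KK_nonneg hk0 _)
    have hS : ∑ x ∈ B \ X, f (n - (e x).1.natAbs) * KK k (e x).2 ≤
        ∑ x ∈ B.filter (fun x => l ≤ n - (e x).1.natAbs),
          f (n - (e x).1.natAbs) * KK k (e x).2 +
        ∑ x ∈ B.filter (fun x => (e x).2 ∉ J), f (n - (e x).1.natAbs) * KK k (e x).2 := by
      refine (Finset.sum_le_sum_of_subset_of_nonneg hcov fun x _ _ => hterm0 x).trans ?_
      rw [← Finset.sum_union_inter]
      have := Finset.sum_nonneg (s := B.filter (fun x => l ≤ n - (e x).1.natAbs) ∩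
        B.filter (fun x => (e x).2 ∉ J)) fun x _ => hterm0 x
      linarith
    have hS1 : ∑ x ∈ B.filter (fun x => l ≤ n - (e x).1.natAbs),
        f (n - (e x).1.natAbs) * KK k (e x).2 ≤ 2 * (∑' j, f (j + l)) * κ1 := by
      refine (prod_le he _ (fun p => f (n - p.natAbs)) (KK k) (fun _ => hf0 _)
        (KK_nonneg hk0)).trans ?_
      apply mul_le_mul
      · refine le_trans ?_ (ends_sum n l f hf0 hfs)
        apply Finset.sum_le_sum_of_subset_of_nonneg
        · intro p hp
          obtain ⟨x, hx, rfl⟩ := Finset.mem_image.1 hp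
          obtain ⟨h1, h2⟩ := Finset.mem_filter.1 hx
          rw [hB, mem_box] at h1
          obtain ⟨h3, h4⟩ := h1
          rw [Finset.mem_filter, Finset.mem_Icc]
          exact ⟨by omega, h2⟩
        · exact fun _ _ _ => hf0 _
      · exact hKs.sum_le_tsum _ fun q _ => KK_nonneg hk0 q
      · exact Finset.sum_nonneg fun q _ => KK_nonneg hk0 q
      · exact mul_nonneg zero_le_two (tsum_nonneg fun _ => hf0 _)
    have hS2 : ∑ x ∈ B.filter (fun x => (e x).2 ∉ J),
        f (n - (e x).1.natAbs) * KK k (e x).2 ≤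
        σ * ∑ q ∈ (B.filter (fun x => (e x).2 ∉ J)).image (fun x => (e x).2), KK k q := by
      refine (prod_le he _ (fun p => f (n - p.natAbs)) (KK k) (fun _ => hf0 _)
        (KK_nonneg hk0)).trans ?_
      apply mul_le_mul_of_nonneg_right _ (Finset.sum_nonneg fun q _ => KK_nonneg hk0 q)
      refine le_trans ?_ (ends_sum n 0 f hf0 hfs)
      apply Finset.sum_le_sum_of_subset_of_nonneg
      · intro p hp
        obtain ⟨x, hx, rfl⟩ := Finset.mem_image.1 hp
        obtain ⟨h1, h2⟩ := Finset.mem_filter.1 hx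
        rw [hB, mem_box] at h1
        obtain ⟨h3, h4⟩ := h1
        rw [Finset.mem_filter, Finset.mem_Icc]
        exact ⟨by omega, Nat.zero_le _⟩
      · exact fun _ _ _ => hf0 _
    have hJ2 := hJ ((B.filter (fun x => (e x).2 ∉ J)).image (fun x => (e x).2)) (by
      rw [Finset.disjoint_left]
      intro q hq hqJ
      obtain ⟨x, hx, rfl⟩ := Finset.mem_image.1 hq
      exact (Finset.mem_filter.1 hx).2 hqJ)
    have hS3 : ∑ x ∈ B \ X, KL k L (e x).2 ≤
        (2 * n + 1) * (ε / 3 / ((c0 + 1) * (2 * n + 1))) := by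
      have h1 := prod_le he (B \ X) (fun _ => (1 : ℝ)) (KL k L) (fun _ => zero_le_one)
        (KL_nonneg hk0 L)
      simp only [one_mul] at h1
      refine h1.trans ?_
      apply mul_le_mul
      · rw [Finset.sum_const, nsmul_eq_mul, mul_one]
        have h2 : (B \ X).image (fun x => (e x).1) ⊆ Finset.Icc (-(n : ℤ)) n := by
          intro p hp
          obtain ⟨x, hx, rfl⟩ := Finset.mem_image.1 hp
          have h3 := (Finset.mem_sdiff.1 hx).1
          rw [hB, mem_box] at h3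
          obtain ⟨h4, h5⟩ := h3
          rw [Finset.mem_Icc]
          omega
        have h3 := Finset.card_le_card h2
        rw [Int.card_Icc] at h3
        have h4 : ((B \ X).image (fun x => (e x).1)).card ≤ 2 * n + 1 := by omega
        exact_mod_cast h4
      · exact hL _
      · exact Finset.sum_nonneg fun q _ => KL_nonneg hk0 L q
      · positivity
    have hS3' : c0 * ((2 * n + 1) * (ε / 3 / ((c0 + 1) * (2 * n + 1)))) ≤ ε / 3 := by
      have h1 : (2 * (n : ℝ) + 1) * (ε / 3 / ((c0 + 1) * (2 * n + 1))) = ε / 3 / (c0 + 1) := by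
        field_simp
      rw [h1]
      calc c0 * (ε / 3 / (c0 + 1)) ≤ (c0 + 1) * (ε / 3 / (c0 + 1)) :=
            mul_le_mul_of_nonneg_right (by linarith) (by positivity)
        _ = ε / 3 := by field_simp
    have h1 := mul_le_mul_of_nonneg_left (hS.trans (add_le_add hS1 hS2)) hc00
    have h2 := mul_le_mul_of_nonneg_left hS3 hc00
    rw [mul_add] at hle h1
    linarith

end Pool.Agent.Q291.SB
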