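import Pool.Agent.Q291.SB.Thin

set_option autoImplicit false

/-! Quasi-one-dimensional operators with hopping decaying faster than the power 3/2 have soft
cuts. -/

open Filter Topology Set
open Pool.Agent.Q233.BN

namespace Pool.Agent.Q291.SB

/-- the decay in the direction of the line -/
noncomputable def dk (c : ℝ) (t : ℝ) : ℝ := (1 + |t|) ^ (-c)

theorem dk_pos (c t : ℝ) : 0 < dk c t := Real.rpow_pos_of_pos (by positivity) _

theorem dk_mono {c t u : ℝ} (hc : 0 ≤ c) (h : |t| ≤ |u|) : dk c u ≤ dk c t := by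
  unfold dk
  exact Real.rpow_le_rpow_of_nonpos (by positivity) (by linarith) (by linarith)

theorem dk_add (c d t : ℝ) : dk (c + d) t = dk c t * dk d t := by
  unfold dk
  rw [neg_add, Real.rpow_add (by positivity)]

theorem dk_le_one {c : ℝ} (hc : 0 ≤ c) (t : ℝ) : dk c t ≤ 1 := by
  have h := dk_mono (t := 0) (u := t) hc (by simp)
  refine h.trans ?_
  unfold dk
  simp

theorem dk_sum_nat {c : ℝ} (hc : 1 < c) : Summable fun n : ℕ => dk c n := by
  have h1 : Summable fun n : ℕ => ((n : ℝ)) ^ (-c) := Real.summable_nat_rpow.2 (by linarith)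
  have h2 := (summable_nat_add_iff 1).2 h1
  refine h2.congr fun n => ?_
  unfold dk
  rw [abs_of_nonneg (Nat.cast_nonneg n)]
  push_cast
  rw [add_comm]

theorem dk_sum_int {c : ℝ} (hc : 1 < c) : Summable fun n : ℤ => dk c n := by
  have h1 : Summable fun n : ℕ => dk c ((n : ℤ) : ℝ) := by
    refine (dk_sum_nat hc).congr fun n => ?_
    rw [Int.cast_natCast]
  refine Summable.of_nat_of_neg h1 ?_
  refine h1.congr fun n => ?_
  unfold dk
  push_cast
  rw [abs_neg]

/-- sums over translates -/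
theorem dk_shift {c : ℝ} (hc : 1 < c) (p : ℤ) (s : Finset ℤ) :
    ∑ q ∈ s, dk c ((p - q : ℤ) : ℝ) ≤ ∑' q : ℤ, dk c q := by
  have h1 : ∑ q ∈ s, dk c ((p - q : ℤ) : ℝ) = ∑ r ∈ s.image (fun q => p - q), dk c (r : ℝ) := by
    rw [Finset.sum_image]
    intro a _ b _ hab
    have hab' : p - a = p - b := hab
    omega
  rw [h1]
  exact (dk_sum_int hc).sum_le_tsum _ fun q _ => (dk_pos _ _).le

/-- the sum over a symmetric interval, seen from its ends -/
theorem ends_sum (n l : ℕ) (f : ℕ → ℝ) (hf : ∀ j, 0 ≤ f j) (hs : Summable f) :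
    ∑ p ∈ (Finset.Icc (-(n : ℤ)) n).filter (fun p => l ≤ n - p.natAbs), f (n - p.natAbs) ≤
      2 * ∑' j, f (j + l) := by
  have h0 : ∀ g : ℕ → ℤ, (∀ j ∈ Finset.Icc l n, n - (g j).natAbs = j) →
      ∑ p ∈ (Finset.Icc l n).image g, f (n - p.natAbs) ≤ ∑' j, f (j + l) := by
    intro g hg
    have hinj : Set.InjOn g (Finset.Icc l n : Finset ℕ) := by
      intro a ha b hb hab
      rw [← hg a ha, ← hg b hb, hab]
    rw [Finset.sum_image hinj]
    have h1 : ∑ j ∈ Finset.Icc l n, f (n - (g j).natAbs) = ∑ j ∈ Finset.Icc l n, f j :=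
      Finset.sum_congr rfl fun j hj => by rw [hg j hj]
    rw [h1]
    have h2 : Finset.Icc l n ⊆ (Finset.range (n + 1)).image (fun j => j + l) := by
      intro j hj
      rw [Finset.mem_Icc] at hj
      rw [Finset.mem_image]
      exact ⟨j - l, Finset.mem_range.2 (by omega), by omega⟩
    refine (Finset.sum_le_sum_of_subset_of_nonneg h2 fun j _ _ => hf j).trans ?_
    rw [Finset.sum_image (fun a _ b _ hab => by
      have hab' : a + l = b + l := hab
      omega)]
    exact ((summable_nat_add_iff l).2 hs).sum_le_tsum _ fun j _ => hf _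
  have hcov : (Finset.Icc (-(n : ℤ)) n).filter (fun p => l ≤ n - p.natAbs) ⊆
      (Finset.Icc l n).image (fun j : ℕ => (n : ℤ) - (j : ℤ)) ∪
        (Finset.Icc l n).image (fun j : ℕ => (j : ℤ) - (n : ℤ)) := by
    intro p hp
    rw [Finset.mem_filter, Finset.mem_Icc] at hp
    obtain ⟨⟨h1, h2⟩, h3⟩ := hp
    rw [Finset.mem_union, Finset.mem_image, Finset.mem_image]
    rcases le_total 0 p with h | h
    · left
      exact ⟨n - p.natAbs, Finset.mem_Icc.2 ⟨h3, by omega⟩, by omega⟩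
    · right
      exact ⟨n - p.natAbs, Finset.mem_Icc.2 ⟨h3, by omega⟩, by omega⟩
  refine (Finset.sum_le_sum_of_subset_of_nonneg hcov fun j _ _ => hf _).trans ?_
  have hui := Finset.sum_union_inter
    (s₁ := (Finset.Icc l n).image (fun j : ℕ => (n : ℤ) - (j : ℤ)))
    (s₂ := (Finset.Icc l n).image (fun j : ℕ => (j : ℤ) - (n : ℤ)))
    (f := fun p : ℤ => f (n - p.natAbs))
  have hi : 0 ≤ ∑ p ∈ (Finset.Icc l n).image (fun j : ℕ => (n : ℤ) - (j : ℤ)) ∩
      (Finset.Icc l n).image (fun j : ℕ => (j : ℤ) - (n : ℤ)), f (n - p.natAbs) :=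
    Finset.sum_nonneg fun _ _ => hf _
  have ha := h0 (fun j : ℕ => (n : ℤ) - (j : ℤ)) fun j hj => by
    rw [Finset.mem_Icc] at hj
    omega
  have hb := h0 (fun j : ℕ => (j : ℤ) - (n : ℤ)) fun j hj => by
    rw [Finset.mem_Icc] at hj
    omega
  linarith

end Pool.Agent.Q291.SB
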