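import Pool.Agent.Q291.SB.Thin
import Pool.Agent.Q291.SB.Quasi

set_option autoImplicit false

/-! Operators on the lattice whose hopping in the direction `i` decays in the coordinates behind
`i` have thin cuts. -/

open Filter Topology Set
open scoped ENNReal
open Pool.Agent.Q233.BN

namespace Pool.Agent.Q291.SB

theorem summable_prod {d : ℕ} (F : Fin d → ℤ → ℝ) (hF : ∀ j p, 0 ≤ F j p)
    (hs : ∀ j, Summable (F j)) : Summable fun z : Fin d → ℤ => ∏ j, F j (z j) := by
  classical
  refine summable_of_sum_le (c := ∏ j, ∑' p, F j p)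
    (fun z => Finset.prod_nonneg fun j _ => hF j _) fun s => ?_
  have h1 : ∑ z ∈ s, ∏ j, F j (z j) ≤
      ∑ z ∈ Fintype.piFinset (fun j => s.image (fun z => z j)), ∏ j, F j (z j) := by
    apply Finset.sum_le_sum_of_subset_of_nonneg
    · intro z hz
      rw [Fintype.mem_piFinset]
      exact fun j => Finset.mem_image.2 ⟨z, hz, rfl⟩
    · exact fun z _ _ => Finset.prod_nonneg fun j _ => hF j _
  rw [← Finset.prod_univ_sum] at h1
  refine h1.trans (Finset.prod_le_prod (fun j _ => Finset.sum_nonneg fun p _ => hF j p)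
    fun j _ => (hs j).sum_le_tsum _ fun p _ => hF j p)

variable {d : ℕ}

/-- the factors of the summable functions -/
noncomputable def FF (f : ℤ → ℝ) (b : ℝ) (i : Fin d) (ns : Fin d → ℕ) (j : Fin d) (p : ℤ) : ℝ :=
  if j < i then (if p.natAbs ≤ ns j then 1 else 0) else if j = i then dk b p else f p

theorem FF_nonneg {f : ℤ → ℝ} (hf0 : ∀ p, 0 ≤ f p) (b : ℝ) (i : Fin d) (ns : Fin d → ℕ)
    (j : Fin d) (p : ℤ) : 0 ≤ FF f b i ns j p := by
  unfold FF
  split_ifs <;> first | exact zero_le_one | exact le_rfl | exact (dk_pos _ _).le | exact hf0 p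

theorem FF_summable {f : ℤ → ℝ} (hf : Summable f) {b : ℝ} (hb : 1 < b) (i : Fin d)
    (ns : Fin d → ℕ) (j : Fin d) : Summable (FF f b i ns j) := by
  unfold FF
  by_cases h1 : j < i
  · simp only [if_pos h1]
    refine summable_of_ne_finset_zero (s := Finset.Icc (-(ns j : ℤ)) (ns j)) fun p hp => ?_
    rw [Finset.mem_Icc] at hp
    rw [if_neg]
    omega
  · simp only [if_neg h1]
    by_cases h2 : j = i
    · simp only [if_pos h2]
      exact dk_sum_int hb
    · simp only [if_neg h2]
      exact hf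

/-- the summable function belonging to the direction `i` -/
noncomputable def Gi (f : ℤ → ℝ) (b : ℝ) (i : Fin d) (ns : Fin d → ℕ) (z : Fin d → ℤ) : ℝ :=
  ∏ j, FF f b i ns j (z j)

theorem Gi_nonneg {f : ℤ → ℝ} (hf0 : ∀ p, 0 ≤ f p) (b : ℝ) (i : Fin d) (ns : Fin d → ℕ)
    (z : Fin d → ℤ) : 0 ≤ Gi f b i ns z :=
  Finset.prod_nonneg fun j _ => FF_nonneg hf0 b i ns j _

theorem Gi_congr {f : ℤ → ℝ} {b : ℝ} (i : Fin d) {ns ns' : Fin d → ℕ}
    (h : ∀ j, j < i → ns j = ns' j) : Gi f b i ns = Gi f b i ns' := by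
  funext z
  unfold Gi
  refine Finset.prod_congr rfl fun j _ => ?_
  unfold FF
  by_cases h1 : j < i
  · rw [if_pos h1, if_pos h1, h j h1]
  · rw [if_neg h1, if_neg h1]

theorem Gi_eq {f : ℤ → ℝ} {b : ℝ} (i : Fin d) {ns : Fin d → ℕ} {x : Fin d → ℤ}
    (hx : ∀ j, (x j).natAbs ≤ ns j) (t : ℤ) :
    Gi f b i ns (Function.update x i t) =
      dk b t * ∏ j ∈ Finset.univ.filter (fun j => i < j), f (x j) := by
  unfold Gi
  rw [Finset.prod_filter, ← Finset.mul_prod_erase Finset.univ _ (Finset.mem_univ i),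
    ← Finset.mul_prod_erase Finset.univ (fun j => if i < j then f (x j) else 1)
      (Finset.mem_univ i)]
  have h0 : FF f b i ns i (Function.update x i t i) = dk b t := by
    unfold FF
    rw [if_neg (lt_irrefl _), if_pos rfl, Function.update_self]
  rw [h0, if_neg (lt_irrefl _), one_mul]
  congr 1
  refine Finset.prod_congr rfl fun j hj => ?_
  have hji := Finset.ne_of_mem_erase hj
  unfold FF
  rw [Function.update_of_ne hji]
  rcases lt_or_gt_of_ne hji with h | h
  · rw [if_pos h, if_pos (hx j), if_neg (not_lt.2 h.le)]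
  · rw [if_neg (not_lt.2 h.le), if_neg hji, if_pos h]

/-- the cost of the two faces in the direction `i` -/
noncomputable def qq (f : ℤ → ℝ) (b C : ℝ) (w : (Fin d → ℤ) → ℝ) (i : Fin d) (ns : Fin d → ℕ)
    (N : ℕ) (z : Fin d → ℤ) : ℝ :=
  min (C * Gi f b i ns z)
    (w (Function.update z i ((N : ℤ) - z i)) + w (Function.update z i (z i - (N : ℤ))))

theorem qq_nonneg {f : ℤ → ℝ} (hf0 : ∀ p, 0 ≤ f p) (b : ℝ) {C : ℝ} (hC : 0 ≤ C)
    {w : (Fin d → ℤ) → ℝ} (hw : ∀ x, 0 < w x) (i : Fin d) (ns : Fin d → ℕ) (N : ℕ)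
    (z : Fin d → ℤ) : 0 ≤ qq f b C w i ns N z :=
  le_min (mul_nonneg hC (Gi_nonneg hf0 b i ns z)) (add_pos (hw _) (hw _)).le

theorem Gi_summable {f : ℤ → ℝ} (hf0 : ∀ p, 0 ≤ f p) (hf : Summable f) {b : ℝ} (hb : 1 < b)
    (i : Fin d) (ns : Fin d → ℕ) : Summable (Gi f b i ns) :=
  summable_prod _ (fun j p => FF_nonneg hf0 b i ns j p) fun j => FF_summable hf hb i ns j

theorem qq_summable {f : ℤ → ℝ} (hf0 : ∀ p, 0 ≤ f p) (hf : Summable f) {b : ℝ} (hb : 1 < b)
    {C : ℝ} (hC : 0 ≤ C) {w : (Fin d → ℤ) → ℝ} (hw : ∀ x, 0 < w x) (i : Fin d)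
    (ns : Fin d → ℕ) (N : ℕ) : Summable (qq f b C w i ns N) :=
  Summable.of_nonneg_of_le (qq_nonneg hf0 b hC hw i ns N) (fun _ => min_le_left _ _)
    ((Gi_summable hf0 hf hb i ns).mul_left C)

theorem qq_tendsto {f : ℤ → ℝ} (hf0 : ∀ p, 0 ≤ f p) (hf : Summable f) {b : ℝ} (hb : 1 < b)
    {C : ℝ} (hC : 0 ≤ C) {w : (Fin d → ℤ) → ℝ} (hw : ∀ x, 0 < w x)
    (hwt : Tendsto w cofinite (𝓝 0)) (i : Fin d)
    (ns : Fin d → ℕ) : Tendsto (fun N => ∑' z, qq f b C w i ns N z) atTop (𝓝 0) := by
  have h0 : ∑' _ : Fin d → ℤ, (0 : ℝ) = 0 := tsum_zero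
  rw [← h0]
  apply tendsto_tsum_of_dominated_convergence ((Gi_summable hf0 hf hb i ns).mul_left C)
  · intro z
    have h1 : ∀ s : ℕ → ℤ, Function.Injective s →
        Tendsto (fun N : ℕ => w (Function.update z i (s N))) atTop (𝓝 0) := by
      intro s hs
      have h2 : Function.Injective fun N : ℕ => Function.update z i (s N) := by
        intro a b hab
        have h3 := congrFun hab i
        simp only [Function.update_self] at h3
        exact hs h3
      have h3 := h2.tendsto_cofinite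
      rw [Nat.cofinite_eq_atTop] at h3
      exact hwt.comp h3
    have h2 := (h1 (fun N => (N : ℤ) - z i) (fun a b h => by
      have h' : (a : ℤ) - z i = b - z i := h
      omega)).add (h1 (fun N => z i - (N : ℤ)) (fun a b h => by
      have h' : z i - (a : ℤ) = z i - b := h
      omega))
    rw [add_zero] at h2
    have h3 := (tendsto_const_nhds (x := C * Gi f b i ns z)).min h2
    rw [min_eq_right (mul_nonneg hC (Gi_nonneg hf0 b i ns z))] at h3
    exact h3
  · refine Eventually.of_forall fun N z => ?_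
    rw [Real.norm_eq_abs, abs_of_nonneg (qq_nonneg hf0 b hC hw i ns N z)]
    exact min_le_left _ _

/-- the successive choice of the sides of the box -/
theorem exists_sides {f : ℤ → ℝ} (hf0 : ∀ p, 0 ≤ f p) (hf : Summable f) {b : ℝ} (hb : 1 < b)
    {C : ℝ} (hC : 0 ≤ C) {w : (Fin d → ℤ) → ℝ} (hw : ∀ x, 0 < w x)
    (hwt : Tendsto w cofinite (𝓝 0)) (o : Fin d → ℤ) {ε : ℝ} (hε : 0 < ε) :
    ∃ ns : Fin d → ℕ, ∀ i, (o i).natAbs ≤ ns i ∧ ∑' z, qq f b C w i ns (ns i) z ≤ ε := by
  have key : ∀ k : ℕ, ∃ ns : Fin d → ℕ, ∀ i : Fin d, i.1 < k →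
      (o i).natAbs ≤ ns i ∧ ∑' z, qq f b C w i ns (ns i) z ≤ ε := by
    intro k
    induction k with
    | zero => exact ⟨fun _ => 0, fun i hi => absurd hi (Nat.not_lt_zero _)⟩
    | succ k ih =>
      obtain ⟨ns, hns⟩ := ih
      by_cases hk : k < d
      · set i0 : Fin d := ⟨k, hk⟩ with hi0
        obtain ⟨N, h1, h2⟩ := (((tendsto_order.1 (qq_tendsto hf0 hf hb hC hw hwt i0 ns)).2 ε
          hε).and (eventually_ge_atTop (o i0).natAbs)).exists
        refine ⟨Function.update ns i0 N, fun i hi => ?_⟩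
        rcases eq_or_ne i i0 with h3 | h3
        · rw [h3, Function.update_self]
          refine ⟨h2, ?_⟩
          have h4 : qq f b C w i0 (Function.update ns i0 N) N = qq f b C w i0 ns N := by
            funext z
            unfold qq
            rw [Gi_congr i0 fun j hj => Function.update_of_ne hj.ne N ns]
          rw [h4]
          exact h1.le
        · have h5 : i.1 < k := by
            have : i.1 ≠ k := fun h => h3 (Fin.ext h)
            omega
          have h6 := hns i h5
          rw [Function.update_of_ne h3]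
          have h7 : qq f b C w i (Function.update ns i0 N) (ns i) = qq f b C w i ns (ns i) := by
            funext z
            unfold qq
            rw [Gi_congr (ns := Function.update ns i0 N) (ns' := ns) i fun j hj => ?_]
            apply Function.update_of_ne
            intro h8
            have h9 : j.1 < i.1 := hj
            rw [h8] at h9
            have : k < i.1 := h9
            omega
          rw [h7]
          exact h6
      · refine ⟨ns, fun i _ => hns i ?_⟩
        have := i.2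
        omega
  obtain ⟨ns, hns⟩ := key d
  exact ⟨ns, fun i => hns i i.2⟩

/-- the box with sides `ns` -/
noncomputable def bx (ns : Fin d → ℕ) : Finset (Fin d → ℤ) :=
  Fintype.piFinset fun i => Finset.Icc (-(ns i : ℤ)) (ns i)

theorem mem_bx {ns : Fin d → ℕ} {x : Fin d → ℤ} : x ∈ bx ns ↔ ∀ i, (x i).natAbs ≤ ns i := by
  unfold bx
  rw [Fintype.mem_piFinset]
  refine forall_congr' fun i => ?_
  rw [Finset.mem_Icc]
  omega

theorem min_sum_le {κ : Type} (s : Finset κ) {u : ℝ} (hu : 0 ≤ u) (c : κ → ℝ)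
    (hc : ∀ i, 0 ≤ c i) : min u (∑ i ∈ s, c i) ≤ ∑ i ∈ s, min u (c i) := by
  classical
  induction s using Finset.induction with
  | empty => simp [hu]
  | insert i s hi ih =>
    rw [Finset.sum_insert hi, Finset.sum_insert hi]
    have h1 : 0 ≤ ∑ i ∈ s, c i := Finset.sum_nonneg fun i _ => hc i
    have h2 : 0 ≤ ∑ i ∈ s, min u (c i) := Finset.sum_nonneg fun i _ => le_min hu (hc i)
    rcases le_total u (c i) with h | h
    · rw [min_eq_left (by linarith : u ≤ c i + ∑ i ∈ s, c i), min_eq_left h]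
      linarith
    · rw [min_eq_right h]
      refine le_trans ?_ (add_le_add le_rfl ih)
      rcases le_total u (∑ i ∈ s, c i) with h3 | h3
      · rw [min_eq_left h3, min_eq_left (by linarith [hc i])]
        linarith [hc i]
      · rw [min_eq_right h3]
        exact min_le_right _ _

/-- sums of the decay over the lattice -/
theorem dk_prod {a : ℝ} (ha : 0 ≤ a) (z : Fin d → ℤ) (hd : d ≠ 0) :
    dk a ‖z‖ ≤ ∏ j, dk (a / d) (z j) := by
  have hd' : (d : ℝ) ≠ 0 := by exact_mod_cast hd
  have h1 : dk a ‖z‖ = ∏ _j : Fin d, dk (a / d) ‖z‖ := by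
    rw [Finset.prod_const, Finset.card_univ, Fintype.card_fin]
    unfold dk
    rw [← Real.rpow_mul_natCast (by positivity)]
    congr 1
    field_simp
  rw [h1]
  refine Finset.prod_le_prod (fun j _ => (dk_pos _ _).le) fun j _ => ?_
  apply dk_mono (by positivity)
  rw [abs_of_nonneg (norm_nonneg z)]
  have h2 := norm_le_pi_norm z j
  rwa [Int.norm_eq_abs] at h2

variable (P : Data (Fin d → ℤ))

theorem leak_bx (hd : d ≠ 0) {f : ℤ → ℝ} (hf0 : ∀ p, 0 ≤ f p) (hf1 : ∀ p, f p ≤ 1) {C : ℝ}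
    (hC : 0 ≤ C) {a b : ℝ} (ha : (d : ℝ) / 2 < a) (hb : 1 < b)
    (hT : ∀ (i : Fin d) (x y), (∀ j, j < i → x j = y j) → x i ≠ y i → ‖(P.T (ee x)) y‖ ≤
      C * dk (a + b) ‖x - y‖ * ∏ j ∈ Finset.univ.filter (fun j => i < j), f (x j))
    {ns : Fin d → ℕ} {x : Fin d → ℤ} (hx : x ∈ bx ns) :
    ‖ow P (bx ns) x‖ ≤ ∑ i, √(∑' z : Fin d → ℤ, ∏ j, dk ((a + a) / d) (z j)) * C *
      (dk b ((ns i - (x i).natAbs : ℕ) : ℝ) *
        ∏ j ∈ Finset.univ.filter (fun j => i < j), f (x j)) := by
  have ha0 : 0 < a := lt_of_le_of_lt (by positivity) ha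
  have hdpos : (0 : ℝ) < d := by
    have : 0 < d := Nat.pos_of_ne_zero hd
    exact_mod_cast this
  set A : ℝ := ∑' z : Fin d → ℤ, ∏ j, dk ((a + a) / d) (z j) with hA
  have hAs : Summable fun z : Fin d → ℤ => ∏ j, dk ((a + a) / d) (z j) := by
    apply summable_prod (fun _ p => dk ((a + a) / d) p) (fun _ _ => (dk_pos _ _).le)
    intro _
    apply dk_sum_int
    rw [lt_div_iff₀ hdpos]
    linarith
  have hA0 : 0 ≤ A := tsum_nonneg fun z => Finset.prod_nonneg fun j _ => (dk_pos _ _).le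
  set c : Fin d → ℝ := fun i => C * (dk b ((ns i - (x i).natAbs : ℕ) : ℝ) *
        ∏ j ∈ Finset.univ.filter (fun j => i < j), f (x j)) with hc
  have hprod0 : ∀ i : Fin d, 0 ≤ ∏ j ∈ Finset.univ.filter (fun j => i < j), f (x j) := fun i =>
    Finset.prod_nonneg fun j _ => hf0 _
  have hc0 : ∀ i, 0 ≤ c i := fun i =>
    mul_nonneg hC (mul_nonneg (dk_pos _ _).le (hprod0 i))
  set S : ℝ := ∑ i, c i with hS
  have hS0 : 0 ≤ S := Finset.sum_nonneg fun i _ => hc0 i
  have hpt : ∀ y, ‖(ow P (bx ns) x) y‖ ^ 2 ≤ (∏ j, dk ((a + a) / d) ((x - y) j)) * S ^ 2 := by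
    intro y
    have h1 : ‖(ow P (bx ns) x) y‖ ≤ dk a ‖x - y‖ * S := by
      rw [ow_apply]
      split_ifs with hy
      · rw [norm_zero]
        exact mul_nonneg (dk_pos _ _).le hS0
      · rw [mem_bx] at hx hy
        push Not at hy
        obtain ⟨i', hi'⟩ := hy
        have hne : x i' ≠ y i' := by
          intro h
          rw [← h] at hi'
          exact absurd (hx i') (not_le.2 hi')
        set Q : Finset (Fin d) := Finset.univ.filter fun i => x i ≠ y i with hQ
        have hmemQ : ∀ j, j ∈ Q ↔ x j ≠ y j := fun j => by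
          rw [hQ, Finset.mem_filter]
          exact ⟨fun h => h.2, fun h => ⟨Finset.mem_univ _, h⟩⟩
        have hnonempty : Q.Nonempty := ⟨i', (hmemQ i').2 hne⟩
        set i := Q.min' hnonempty with hi
        have h2 : x i ≠ y i := (hmemQ i).1 (Q.min'_mem hnonempty)
        have h3 : ∀ j, j < i → x j = y j := by
          intro j hj
          by_contra h4
          exact absurd (Q.min'_le j ((hmemQ j).2 h4)) (not_le.2 hj)
        have h4 : i ≤ i' := Q.min'_le i' ((hmemQ i').2 hne)
        have h5 : ∏ j ∈ Finset.univ.filter (fun j => i < j), f (x j) ≤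
            ∏ j ∈ Finset.univ.filter (fun j => i' < j), f (x j) := by
          apply Finset.prod_le_prod_of_subset_of_le_one
          · exact fun j hj => by
              rw [Finset.mem_filter] at hj ⊢
              exact ⟨hj.1, lt_of_le_of_lt h4 hj.2⟩
          · exact fun j _ => hf0 _
          · exact fun j _ _ => hf1 _
        have h6 : dk b ‖x - y‖ ≤ dk b ((ns i' - (x i').natAbs : ℕ) : ℝ) := by
          apply dk_mono (by linarith)
          rw [Nat.abs_cast, abs_of_nonneg (norm_nonneg _)]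
          have h7 := norm_le_pi_norm (x - y) i'
          rw [Pi.sub_apply, Int.norm_eq_abs] at h7
          refine le_trans ?_ h7
          have h8 : ((ns i' - (x i').natAbs : ℕ) : ℤ) ≤ |x i' - y i'| := by
            rw [Int.abs_eq_natAbs]
            omega
          exact_mod_cast h8
        calc ‖(P.T (ee x)) y‖ ≤ C * dk (a + b) ‖x - y‖ *
              ∏ j ∈ Finset.univ.filter (fun j => i < j), f (x j) := hT i x y h3 h2
          _ ≤ C * dk (a + b) ‖x - y‖ *
              ∏ j ∈ Finset.univ.filter (fun j => i' < j), f (x j) :=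
              mul_le_mul_of_nonneg_left h5 (mul_nonneg hC (dk_pos _ _).le)
          _ = dk a ‖x - y‖ * (C * (dk b ‖x - y‖ *
              ∏ j ∈ Finset.univ.filter (fun j => i' < j), f (x j))) := by
              rw [dk_add]
              ring
          _ ≤ dk a ‖x - y‖ * c i' := by
              apply mul_le_mul_of_nonneg_left _ (dk_pos _ _).le
              exact mul_le_mul_of_nonneg_left (mul_le_mul_of_nonneg_right h6 (hprod0 i')) hC
          _ ≤ dk a ‖x - y‖ * S := by
              apply mul_le_mul_of_nonneg_left _ (dk_pos _ _).le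
              exact Finset.single_le_sum (fun i _ => hc0 i) (Finset.mem_univ i')
    calc ‖(ow P (bx ns) x) y‖ ^ 2 ≤ (dk a ‖x - y‖ * S) ^ 2 :=
          pow_le_pow_left₀ (norm_nonneg _) h1 2
      _ = dk (a + a) ‖x - y‖ * S ^ 2 := by
          rw [dk_add]
          ring
      _ ≤ _ := mul_le_mul_of_nonneg_right (dk_prod (by linarith) (x - y) hd) (sq_nonneg _)
  have hsq : ‖ow P (bx ns) x‖ ^ 2 ≤ A * S ^ 2 := by
    rw [norm_sq_tsum]
    apply (summable_sq _).tsum_le_of_sum_le
    intro s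
    refine (Finset.sum_le_sum fun y _ => hpt y).trans ?_
    rw [← Finset.sum_mul]
    apply mul_le_mul_of_nonneg_right _ (sq_nonneg _)
    have h1 : ∑ y ∈ s, ∏ j, dk ((a + a) / d) ((x - y) j) =
        ∑ z ∈ s.image (fun y => x - y), ∏ j, dk ((a + a) / d) (z j) := by
      rw [Finset.sum_image]
      intro u _ v _ huv
      exact sub_right_injective huv
    rw [h1]
    exact hAs.sum_le_tsum _ fun z _ => Finset.prod_nonneg fun j _ => (dk_pos _ _).le
  have h9 : (√A * S) ^ 2 = A * S ^ 2 := by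
    rw [mul_pow, Real.sq_sqrt hA0]
  rw [← h9] at hsq
  have h10 := (abs_le_of_sq_le_sq' hsq (mul_nonneg (Real.sqrt_nonneg _) hS0)).2
  refine h10.trans (le_of_eq ?_)
  rw [hS, Finset.mul_sum]
  refine Finset.sum_congr rfl fun i _ => ?_
  simp only [hc]
  ring

theorem thin_of_lattice (hd : d ≠ 0) {f : ℤ → ℝ} (hf0 : ∀ p, 0 ≤ f p) (hf1 : ∀ p, f p ≤ 1)
    (hf : Summable f) {C : ℝ} (hC : 0 ≤ C) {a b : ℝ} (ha : (d : ℝ) / 2 < a) (hb : 1 < b)
    (hT : ∀ (i : Fin d) (x y), (∀ j, j < i → x j = y j) → x i ≠ y i → ‖(P.T (ee x)) y‖ ≤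
      C * dk (a + b) ‖x - y‖ * ∏ j ∈ Finset.univ.filter (fun j => i < j), f (x j))
    {a0 : ℝ} (haa : ∀ x, a0 ≤ |P.a x|) : Thin P a0 := by
  intro w hw hwt o ε hε
  set C2 : ℝ := √(∑' z : Fin d → ℤ, ∏ j, dk ((a + a) / d) (z j)) * C with hC2
  have hC20 : 0 ≤ C2 := mul_nonneg (Real.sqrt_nonneg _) hC
  obtain ⟨ns, hns⟩ := exists_sides hf0 hf hb hC20 hw hwt o (ε := ε / (2 * (d + 1)))
    (by positivity)
  refine ⟨bx ns, mem_bx.2 fun i => (hns i).1, ?_⟩
  set g : Fin d → (Fin d → ℤ) → ℝ := fun i x => C2 * (dk b ((ns i - (x i).natAbs : ℕ) : ℝ) *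
      ∏ j ∈ Finset.univ.filter (fun j => i < j), f (x j)) with hg
  have hg0 : ∀ i x, 0 ≤ g i x := fun i x =>
    mul_nonneg hC20 (mul_nonneg (dk_pos _ _).le (Finset.prod_nonneg fun j _ => hf0 _))
  have h1 : ∑ x ∈ bx ns, (if a0 ≤ |P.a x| then min (w x) ‖ow P (bx ns) x‖
      else ‖ow P (bx ns) x‖) ≤ ∑ i, ∑ x ∈ bx ns, min (w x) (g i x) := by
    rw [Finset.sum_comm]
    refine Finset.sum_le_sum fun x hx => ?_
    rw [if_pos (haa x)]
    refine (min_le_min_left _ (leak_bx P hd hf0 hf1 hC ha hb hT hx)).trans ?_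
    exact min_sum_le _ (hw x).le _ fun i => hg0 i x
  -- one half of the box
  have hhalf : ∀ (i : Fin d) (Q : Finset (Fin d → ℤ)), Q ⊆ bx ns →
      (∀ x ∈ Q, ∀ y ∈ Q, (x i).natAbs = (y i).natAbs → x i = y i) →
      ∑ x ∈ Q, min (w x) (g i x) ≤ ∑' z, qq f b C2 w i ns (ns i) z := by
    intro i Q hQ hQ2
    set φ : (Fin d → ℤ) → (Fin d → ℤ) := fun x =>
      Function.update x i (((ns i - (x i).natAbs : ℕ) : ℤ)) with hφ
    have hinj : Set.InjOn φ (Q : Set (Fin d → ℤ)) := by
      intro x hx y hy hxy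
      have hx1 := mem_bx.1 (hQ hx) i
      have hy1 := mem_bx.1 (hQ hy) i
      have h2 := congrFun hxy i
      simp only [hφ, Function.update_self] at h2
      have h3 := hQ2 x hx y hy (by omega)
      funext j
      rcases eq_or_ne j i with rfl | hj
      · exact h3
      · have := congrFun hxy j
        simp only [hφ, Function.update_of_ne hj] at this
        exact this
    have h2 : ∑ x ∈ Q, min (w x) (g i x) ≤ ∑ x ∈ Q, qq f b C2 w i ns (ns i) (φ x) := by
      refine Finset.sum_le_sum fun x hx => ?_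
      have hx1 := mem_bx.1 (hQ hx)
      have hxi := hx1 i
      unfold qq
      simp only [hφ]
      rw [Gi_eq i hx1, Function.update_idem, Function.update_idem, Function.update_self]
      simp only [hg]
      rw [min_comm, Int.cast_natCast]
      apply min_le_min_left
      rcases le_total 0 (x i) with h4 | h4
      · have h5 : (ns i : ℤ) - ((ns i - (x i).natAbs : ℕ) : ℤ) = x i := by omega
        rw [h5, Function.update_eq_self]
        linarith [hw (Function.update x i (((ns i - (x i).natAbs : ℕ) : ℤ) - (ns i : ℤ)))]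
      · have h5 : ((ns i - (x i).natAbs : ℕ) : ℤ) - (ns i : ℤ) = x i := by omega
        rw [h5, Function.update_eq_self]
        linarith [hw (Function.update x i ((ns i : ℤ) - ((ns i - (x i).natAbs : ℕ) : ℤ)))]
    refine h2.trans ?_
    rw [← Finset.sum_image (f := fun z => qq f b C2 w i ns (ns i) z) hinj]
    exact (qq_summable hf0 hf hb hC20 hw i ns (ns i)).sum_le_tsum _ fun z _ =>
      qq_nonneg hf0 b hC20 hw i ns (ns i) z
  have h2 : ∀ i : Fin d, ∑ x ∈ bx ns, min (w x) (g i x) ≤ ε / (d + 1) := by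
    intro i
    rw [← Finset.sum_filter_add_sum_filter_not (bx ns) (fun x : Fin d → ℤ => 0 ≤ x i)]
    have h8 := hhalf i ((bx ns).filter fun x : Fin d → ℤ => 0 ≤ x i) (Finset.filter_subset _ _)
      (fun x hx y hy hxy => by
        have h3 := (Finset.mem_filter.1 hx).2
        have h4 := (Finset.mem_filter.1 hy).2
        omega)
    have h9 := hhalf i ((bx ns).filter fun x : Fin d → ℤ => ¬ 0 ≤ x i) (Finset.filter_subset _ _)
      (fun x hx y hy hxy => by
        have h3 := (Finset.mem_filter.1 hx).2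
        have h4 := (Finset.mem_filter.1 hy).2
        omega)
    have h10 := (hns i).2
    have h11 : ε / (2 * ((d : ℝ) + 1)) + ε / (2 * ((d : ℝ) + 1)) = ε / (d + 1) := by
      field_simp
      ring
    linarith
  refine h1.trans ?_
  calc ∑ i, ∑ x ∈ bx ns, min (w x) (g i x) ≤ ∑ _i : Fin d, ε / (d + 1) :=
        Finset.sum_le_sum fun i _ => h2 i
    _ = d * (ε / (d + 1)) := by
        rw [Finset.sum_const, Finset.card_univ, Fintype.card_fin, nsmul_eq_mul]
    _ ≤ (d + 1) * (ε / (d + 1)) := by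
        apply mul_le_mul_of_nonneg_right _ (by positivity)
        linarith
    _ = ε := by field_simp

end Pool.Agent.Q291.SB
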