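import Pool.Agent.Q291.SB.Thin

set_option autoImplicit false

/-! Operators of finite range along a tree with countably many rays have thin cuts. -/

open Filter Topology Set
open scoped ENNReal
open Pool.Agent.Q233.BN

namespace Pool.Agent.Q291.SB

section tree

variable {V : Type} {root : V} {par : V → V}

/-- the rays of a rooted tree -/
def Ray (root : V) (par : V → V) (r : ℕ → V) : Prop :=
  r 0 = root ∧ ∀ n, par (r (n + 1)) = r n ∧ r (n + 1) ≠ root

theorem Ray.iter {r : ℕ → V} (hr : Ray root par r) (j n : ℕ) : par^[j] (r (n + j)) = r n := by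
  induction j generalizing n with
  | zero => rfl
  | succ j ih =>
    rw [Function.iterate_succ_apply', show n + (j + 1) = (n + 1) + j by omega, ih (n + 1)]
    exact (hr.2 n).1

theorem iter_root (h : par root = root) (j : ℕ) : par^[j] root = root :=
  Function.iterate_fixed h j

theorem Ray.ne {r : ℕ → V} (hr : Ray root par r) {n : ℕ} (hn : n ≠ 0) : r n ≠ root := by
  obtain ⟨m, rfl⟩ := Nat.exists_eq_succ_of_ne_zero hn
  exact (hr.2 m).2

theorem Ray.injective (hroot : par root = root) {r : ℕ → V} (hr : Ray root par r) :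
    Function.Injective r := by
  have key : ∀ m n : ℕ, m < n → r m ≠ r n := by
    intro m n hmn h
    obtain ⟨k, rfl⟩ := Nat.exists_eq_add_of_lt hmn
    -- apply `par` m times
    have h1 : par^[m] (r m) = root := by
      have := hr.iter m 0
      rw [zero_add] at this
      rw [this, hr.1]
    have h2 : par^[m] (r (m + k + 1)) = r (k + 1) := by
      have := hr.iter m (k + 1)
      rwa [show k + 1 + m = m + k + 1 by omega] at this
    rw [h, h2] at h1
    exact hr.ne (Nat.succ_ne_zero k) h1
  intro a b hab
  rcases lt_trichotomy a b with h | h | h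
  · exact absurd hab (key a b h)
  · exact h
  · exact absurd hab.symm (key b a h)

/-- the nodes which have no proper ancestor in `S` -/
def Pre (par : V → V) (S : Set V) : Set V := {v | ∀ j, par^[j + 1] v ∉ S}

/-- If every ray meets `S` then only finitely many nodes have no proper ancestor in `S`. -/
theorem pre_finite (hroot : par root = root) (hreach : ∀ v, ∃ n : ℕ, par^[n] v = root)
    (hchild : ∀ v, {u | par u = v}.Finite) {S : Set V}
    (hS : ∀ r, Ray root par r → ∃ n, r n ∈ S) : (Pre par S).Finite := by
  by_contra hinf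
  -- nodes with infinitely many descendants in `Pre`
  set D : V → Set V := fun v => {u | u ∈ Pre par S ∧ ∃ n : ℕ, par^[n] u = v} with hD
  have hstep : ∀ v, (D v).Infinite → ∃ u, par u = v ∧ u ≠ root ∧ (D u).Infinite := by
    intro v hv
    by_contra hcon
    push Not at hcon
    apply hv
    have hsub : D v ⊆ {v} ∪ ⋃ u ∈ {u | par u = v ∧ u ≠ root}, D u := by
      rintro u ⟨hu, n, hn⟩
      by_cases huv : u = v
      · exact Or.inl huv
      · right
        -- the last iterate before `v`
        have hex : ∃ n, par^[n] u = v := ⟨n, hn⟩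
        classical
        set n0 := Nat.find hex with hn0
        have h1 : par^[n0] u = v := Nat.find_spec hex
        have h2 : n0 ≠ 0 := by
          intro h
          rw [h] at h1
          exact huv h1
        obtain ⟨m, hm⟩ := Nat.exists_eq_succ_of_ne_zero h2
        have h3 : par^[m] u ≠ v := Nat.find_min hex (by omega)
        have h4 : par (par^[m] u) = v := by
          rw [← Function.iterate_succ_apply' par m u, ← hm]
          exact h1
        rw [mem_iUnion₂]
        refine ⟨par^[m] u, ⟨h4, fun h5 => ?_⟩, hu, m, rfl⟩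
        rw [h5, hroot] at h4
        rw [h5, h4] at h3
        exact h3 rfl
    refine Set.Finite.subset ?_ hsub
    refine (Set.finite_singleton v).union (Set.Finite.biUnion ?_ fun u hu => ?_)
    · exact (hchild v).subset fun u hu => hu.1
    · exact hcon u hu.1 hu.2
  have h0 : (D root).Infinite := by
    intro hfin
    apply hinf
    refine hfin.subset fun v hv => ⟨hv, hreach v⟩
  choose! nx hnx1 hnx2 hnx3 using hstep
  set r : ℕ → V := fun n => nx^[n] root with hr
  have hrinf : ∀ n, (D (r n)).Infinite := by
    intro n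
    induction n with
    | zero => exact h0
    | succ n ih =>
      have : r (n + 1) = nx (r n) := Function.iterate_succ_apply' nx n root
      rw [this]
      exact hnx3 _ ih
  have hray : Ray root par r := by
    refine ⟨rfl, fun n => ?_⟩
    have : r (n + 1) = nx (r n) := Function.iterate_succ_apply' nx n root
    rw [this]
    exact ⟨hnx1 _ (hrinf n), hnx2 _ (hrinf n)⟩
  obtain ⟨n, hn⟩ := hS r hray
  -- a node of `Pre` below `r (n + 1)`
  obtain ⟨u, hu, k, hk⟩ := (hrinf (n + 1)).nonempty
  have h1 : par^[k + 1] u = r n := by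
    rw [Function.iterate_succ_apply', hk]
    exact (hray.2 n).1
  exact hu k (h1 ▸ hn)

end tree

section

variable {ι V : Type} [DecidableEq ι] (P : Data ι) {root : V} {par : V → V} (bag : ι → V)

theorem thin_of_tree [Countable ι] (hroot : par root = root)
    (hreach : ∀ v, ∃ n : ℕ, par^[n] v = root) (hchild : ∀ v, {u | par u = v}.Finite)
    (hcount : {r : ℕ → V | Ray root par r}.Countable) (hbag : ∀ v, {x | bag x = v}.Finite)
    (hT : ∀ x y, (P.T (ee x)) y ≠ 0 →
      bag x = bag y ∨ par (bag x) = bag y ∨ par (bag y) = bag x) {a0 : ℝ}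
    (hthin : ∀ r, Ray root par r → ∃ m : ℕ, ∃ᶠ n in atTop, {x | bag x = r n}.encard ≤ m ∧
      ∀ x, bag x = r n → a0 ≤ |P.a x|) : Thin P a0 := by
  classical
  intro w hw hwt o ε hε
  obtain ⟨en, hen⟩ := Set.countable_iff_exists_injOn.1 hcount
  -- the cut on each ray
  have hcut : ∀ r, Ray root par r → ∃ n : ℕ, (∀ j, par^[j] (bag o) ≠ r n) ∧
      ∑ x ∈ (hbag (r n)).toFinset, w x ≤ ε / 2 / 2 ^ en r ∧
      ∀ x, bag x = r n → a0 ≤ |P.a x| := by
    intro r hr
    obtain ⟨m, hm⟩ := hthin r hr
    have hrinj := hr.injective hroot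
    have hfin1 : {v | ∃ j, par^[j] (bag o) = v}.Finite := by
      obtain ⟨n, hn⟩ := hreach (bag o)
      refine ((Finset.range (n + 1)).image fun j => par^[j] (bag o)).finite_toSet.subset ?_
      rintro v ⟨j, rfl⟩
      rw [Finset.mem_coe, Finset.mem_image]
      rcases le_or_gt j n with h | h
      · exact ⟨j, Finset.mem_range.2 (by omega), rfl⟩
      · refine ⟨n, Finset.mem_range.2 (by omega), ?_⟩
        obtain ⟨k, rfl⟩ := Nat.exists_eq_add_of_lt h
        rw [show n + k + 1 = (k + 1) + n by omega, Function.iterate_add_apply, hn,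
          iter_root hroot]
    set δ : ℝ := ε / 2 / 2 ^ en r / (m + 1) with hδ
    have hδ0 : 0 < δ := by positivity
    have hfin2 : {v | ∃ x, bag x = v ∧ ¬ w x < δ}.Finite := by
      have h1 := (tendsto_order.1 hwt).2 δ hδ0
      rw [eventually_cofinite] at h1
      exact (h1.image bag).subset fun v ⟨x, hx, hx2⟩ => ⟨x, hx2, hx⟩
    have hev : ∀ S : Set V, S.Finite → ∀ᶠ n in atTop, r n ∉ S := by
      intro S hSf
      have h1 := hrinj.tendsto_cofinite
      rw [Nat.cofinite_eq_atTop] at h1
      exact h1 hSf.compl_mem_cofinite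
    obtain ⟨n, ⟨h1, h2⟩, h3, h4⟩ := (hm.and_eventually ((hev _ hfin1).and (hev _ hfin2))).exists
    refine ⟨n, fun j hj => h3 ⟨j, hj⟩, ?_, h2⟩
    have h5 : ∀ x ∈ (hbag (r n)).toFinset, w x ≤ δ := by
      intro x hx
      rw [Set.Finite.mem_toFinset] at hx
      by_contra h6
      exact h4 ⟨x, hx, fun h7 => h6 h7.le⟩
    have h6 : ((hbag (r n)).toFinset.card : ℝ) ≤ m := by
      rw [(hbag (r n)).encard_eq_coe_toFinset_card] at h1
      exact_mod_cast h1
    calc ∑ x ∈ (hbag (r n)).toFinset, w x ≤ ((hbag (r n)).toFinset.card : ℝ) * δ := by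
          rw [← nsmul_eq_mul]
          exact Finset.sum_le_card_nsmul _ _ _ h5
      _ ≤ (m + 1) * δ := mul_le_mul_of_nonneg_right (by linarith) hδ0.le
      _ = ε / 2 / 2 ^ en r := by rw [hδ]; field_simp
  choose! N hN1 hN2 hN3 using hcut
  set S : Set V := {v | ∃ r, Ray root par r ∧ v = r (N r)} with hS
  have hWfin : (Pre par S).Finite :=
    pre_finite hroot hreach hchild fun r hr => ⟨N r, r, hr, rfl⟩
  set W := hWfin.toFinset with hW
  have hBfin : {x | bag x ∈ Pre par S}.Finite := by
    have h1 : {x | bag x ∈ Pre par S} ⊆ ⋃ v ∈ Pre par S, {x | bag x = v} := by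
      intro x hx
      rw [mem_iUnion₂]
      exact ⟨bag x, hx, rfl⟩
    exact (hWfin.biUnion fun v _ => hbag v).subset h1
  set B : Finset ι := hBfin.toFinset with hB
  have hmemB : ∀ x, x ∈ B ↔ bag x ∈ Pre par S := fun x => hBfin.mem_toFinset
  refine ⟨B, ?_, ?_⟩
  · rw [hmemB]
    rintro j ⟨r, hr, h1⟩
    exact hN1 r hr (j + 1) h1
  -- the doors lie in bags of `S`
  have hdoor : ∀ x ∈ B, bag x ∉ S → ow P B x = 0 := by
    intro x hx hxS
    ext y
    rw [ow_apply]
    split_ifs with hy
    · rfl
    · by_contra h1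
      rw [hmemB] at hx hy
      rcases hT x y h1 with h2 | h2 | h2
      · exact hy (h2 ▸ hx)
      · apply hy
        intro j hj
        apply hx (j + 1)
        rw [← h2, ← Function.iterate_succ_apply] at hj
        exact hj
      · apply hy
        intro j hj
        rw [Function.iterate_succ_apply, h2] at hj
        cases j with
        | zero => exact hxS hj
        | succ j => exact hx j hj
  have hdoor2 : ∀ x, bag x ∈ S → a0 ≤ |P.a x| := by
    rintro x ⟨r, hr, h1⟩
    exact hN3 r hr x h1
  have hcost : ∀ x ∈ B, (if a0 ≤ |P.a x| then min (w x) ‖ow P B x‖ else ‖ow P B x‖) ≤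
      if bag x ∈ S then w x else 0 := by
    intro x hx
    by_cases h1 : bag x ∈ S
    · rw [if_pos h1, if_pos (hdoor2 x h1)]
      exact min_le_left _ _
    · rw [if_neg h1, hdoor x hx h1, norm_zero]
      split_ifs
      · exact min_le_right _ _
      · exact le_rfl
  refine (Finset.sum_le_sum hcost).trans ?_
  -- choose a ray for each cut
  have hray : ∀ v ∈ W.filter (fun v => v ∈ S), ∃ r, Ray root par r ∧ v = r (N r) := fun v hv =>
    (Finset.mem_filter.1 hv).2
  choose! rr hrr1 hrr2 using hray
  have hinj : Set.InjOn (fun v => en (rr v)) (W.filter (fun v => v ∈ S) : Finset V) := by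
    intro u hu v hv huv
    have h1 := hen (hrr1 u hu) (hrr1 v hv) huv
    rw [hrr2 u hu, hrr2 v hv, h1]
  calc ∑ x ∈ B, (if bag x ∈ S then w x else 0)
      = ∑ v ∈ W, ∑ x ∈ B with bag x = v, (if bag x ∈ S then w x else 0) := by
        refine (Finset.sum_fiberwise_of_maps_to (fun x hx => ?_) _).symm
        rw [hW, Set.Finite.mem_toFinset]
        exact (hmemB x).1 hx
    _ = ∑ v ∈ W.filter (fun v => v ∈ S), ∑ x ∈ B with bag x = v, w x := by
        rw [Finset.sum_filter]
        refine Finset.sum_congr rfl fun v _ => ?_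
        split_ifs with h1
        · refine Finset.sum_congr rfl fun x hx => ?_
          rw [(Finset.mem_filter.1 hx).2, if_pos h1]
        · refine Finset.sum_eq_zero fun x hx => ?_
          rw [(Finset.mem_filter.1 hx).2, if_neg h1]
    _ ≤ ∑ v ∈ W.filter (fun v => v ∈ S), ε / 2 / 2 ^ en (rr v) := by
        refine Finset.sum_le_sum fun v hv => ?_
        refine le_trans ?_ (hN2 (rr v) (hrr1 v hv))
        apply Finset.sum_le_sum_of_subset_of_nonneg
        · intro x hx
          rw [Set.Finite.mem_toFinset]
          have h1 := (Finset.mem_filter.1 hx).2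
          change bag x = rr v (N (rr v))
          rw [h1]
          exact hrr2 v hv
        · exact fun x _ _ => (hw x).le
    _ = ∑ k ∈ (W.filter (fun v => v ∈ S)).image (fun v => en (rr v)), ε / 2 / 2 ^ k := by
        rw [Finset.sum_image hinj]
    _ ≤ ∑' k : ℕ, ε / 2 / 2 ^ k :=
        (summable_geometric_two' ε).sum_le_tsum _ fun k _ => by positivity
    _ = ε := tsum_geometric_two' ε

end

end Pool.Agent.Q291.SB
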