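import Pool.Agent.Q291.SB.Decay
import Pool.Agent.Q291.SB.Tree
import Pool.Agent.Q291.SB.Lattice

set_option autoImplicit false

/-! The final forms. -/

open MeasureTheory Filter Topology Set
open scoped ENNReal NNReal InnerProductSpace
open Pool.Agent.TH980.IM.PR
open Pool.Agent.TH980.IM (cl cl_abs cl_eq)
open Pool.Agent.Q233.BN

namespace Pool.Agent.Q291.SB

theorem wrap {ι : Type} [DecidableEq ι] [Countable ι] (T : L2 ι →L[ℂ] L2 ι)
    (hT : ∀ x y, ((T (ee y)) x).im = 0 ∧ (T (ee y)) x = (T (ee x)) y)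
    (a : ι → ℝ) (ha : ∀ x, |a x| ≤ 1) {a0 : ℝ} (ha0 : 0 < a0)
    (ν : Measure ℝ) [IsProbabilityMeasure ν] (K : ℝ) (hK : ν (Icc (-K) K)ᶜ = 0)
    (hν : ∀ r : ℝ, ν {r} ≠ 1) (hthin : Thin (⟨T, realSA_of hT, a, ha, K⟩ : Data ι) a0) :
    ∀ᵐ ω ∂(Measure.infinitePi fun _ : ι => ν), ∀ H : L2 ι →L[ℂ] L2 ι,
      (∀ u x, (H u) x = (T u) x + ((a x * ω x : ℝ) : ℂ) * u x) → Sing H := by
  have hKae : ∀ᵐ v ∂ν, |v| ≤ K := by
    rw [ae_iff]
    refine measure_mono_null ?_ hK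
    intro v hv hv'
    exact hv (abs_le.2 hv')
  have hK0 : 0 ≤ K := by
    obtain ⟨v, hv⟩ := hKae.exists
    exact (abs_nonneg v).trans hv
  let P : Data ι := ⟨T, realSA_of hT, a, ha, K⟩
  have hmain := thin_main P ν hK0 hKae hν ha0 hthin
  have hKall : ∀ᵐ V ∂(PP ι ν), ∀ x : ι, |V x| ≤ K := by
    rw [ae_all_iff]
    intro x
    exact (measurePreserving_eval_infinitePi (fun _ : ι => ν) x).quasiMeasurePreserving.ae hKae
  filter_upwards [hmain, hKall] with V hV1 hV2 H hH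
  have hHV : H = P.H V := by
    ext u x
    rw [hH u x, P.H_apply]
    change _ = (T u) x + ((a x * cl K (V x) : ℝ) : ℂ) * u x
    rw [cl_eq (hV2 x)]
  rw [hHV]
  exact hV1

theorem norm_ow_eq {ι : Type} [DecidableEq ι] (P : Data ι) (B : Finset ι) (x : ι) :
    ‖ow P B x‖ = √(∑' y, if y ∈ B then 0 else ‖(P.T (ee y)) x‖ ^ 2) := by
  rw [← Real.sqrt_sq (norm_nonneg (ow P B x)), norm_sq_tsum]
  congr 1
  refine tsum_congr fun y => ?_
  rw [ow_apply, symm_entry P.hT y x]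
  split_ifs
  · rw [norm_zero]
    norm_num
  · rfl

/-- the general form -/
theorem part_thin {ι : Type} [DecidableEq ι] [Countable ι] (T : L2 ι →L[ℂ] L2 ι)
    (hT : ∀ x y, ((T (ee y)) x).im = 0 ∧ (T (ee y)) x = (T (ee x)) y)
    (a : ι → ℝ) (ha : ∀ x, |a x| ≤ 1) {a0 : ℝ} (ha0 : 0 < a0)
    (hthin : ∀ w : ι → ℝ, (∀ x, 0 < w x) → Tendsto w cofinite (𝓝 0) → ∀ o : ι, ∀ ε : ℝ, 0 < ε →
      ∃ B : Finset ι, o ∈ B ∧ ∑ x ∈ B, (if a0 ≤ |a x| then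
        min (w x) (√(∑' y, if y ∈ B then 0 else ‖(T (ee y)) x‖ ^ 2))
        else √(∑' y, if y ∈ B then 0 else ‖(T (ee y)) x‖ ^ 2)) ≤ ε)
    (ν : Measure ℝ) [IsProbabilityMeasure ν] (K : ℝ) (hK : ν (Icc (-K) K)ᶜ = 0)
    (hν : ∀ r : ℝ, ν {r} ≠ 1) :
    ∀ᵐ ω ∂(Measure.infinitePi fun _ : ι => ν), ∀ H : L2 ι →L[ℂ] L2 ι,
      (∀ u x, (H u) x = (T u) x + ((a x * ω x : ℝ) : ℂ) * u x) → Sing H := by
  apply wrap T hT a ha ha0 ν K hK hν
  intro w hw hwt o ε hε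
  obtain ⟨B, h1, h2⟩ := hthin w hw hwt o ε hε
  refine ⟨B, h1, le_trans (le_of_eq ?_) h2⟩
  refine Finset.sum_congr rfl fun x _ => ?_
  rw [norm_ow_eq]

/-- tree-like operators with countably many rays -/
theorem part_tree {ι V : Type} [DecidableEq ι] [Countable ι] {root : V} {par : V → V}
    (bag : ι → V) (T : L2 ι →L[ℂ] L2 ι)
    (hT : ∀ x y, ((T (ee y)) x).im = 0 ∧ (T (ee y)) x = (T (ee x)) y)
    (a : ι → ℝ) (ha : ∀ x, |a x| ≤ 1) {a0 : ℝ} (ha0 : 0 < a0) (hroot : par root = root)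
    (hreach : ∀ v, ∃ n : ℕ, par^[n] v = root) (hchild : ∀ v, {u | par u = v}.Finite)
    (hcount : {r : ℕ → V | Ray root par r}.Countable) (hbag : ∀ v, {x | bag x = v}.Finite)
    (hadj : ∀ x y, (T (ee y)) x ≠ 0 →
      bag x = bag y ∨ par (bag x) = bag y ∨ par (bag y) = bag x)
    (hthin : ∀ r, Ray root par r → ∃ m : ℕ, ∃ᶠ n in atTop, {x | bag x = r n}.encard ≤ m ∧
      ∀ x, bag x = r n → a0 ≤ |a x|)
    (ν : Measure ℝ) [IsProbabilityMeasure ν] (K : ℝ) (hK : ν (Icc (-K) K)ᶜ = 0)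
    (hν : ∀ r : ℝ, ν {r} ≠ 1) :
    ∀ᵐ ω ∂(Measure.infinitePi fun _ : ι => ν), ∀ H : L2 ι →L[ℂ] L2 ι,
      (∀ u x, (H u) x = (T u) x + ((a x * ω x : ℝ) : ℂ) * u x) → Sing H := by
  apply wrap T hT a ha ha0 ν K hK hν
  refine thin_of_tree _ bag hroot hreach hchild hcount hbag (fun x y hxy => ?_) hthin
  have h1 : (T (ee y)) x ≠ 0 := by
    rw [(hT x y).2]
    exact hxy
  exact hadj x y h1

/-- hopping decaying faster than the power 3/2 -/
theorem part_quasi {Y : Type} [Countable Y] [DecidableEq Y] (k : Y → Y → ℝ) (α : ℝ)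
    (S : Set (ℤ × Y)) (T : L2 S →L[ℂ] L2 S) (a : S → ℝ) (a0 : ℝ) (hk0 : ∀ p q, 0 ≤ k p q)
    (hk : Summable fun p : Y × Y => k p.1 p.2) (hα : 3 / 2 < α)
    (hT : ∀ x y, ((T (ee y)) x).im = 0 ∧ (T (ee y)) x = (T (ee x)) y)
    (hdec : ∀ x y : S, x ≠ y → ‖(T (ee y)) x‖ ≤
      k x.1.2 y.1.2 * (1 + |(x.1.1 : ℝ) - y.1.1|) ^ (-α))
    (ha : ∀ x, |a x| ≤ 1) (ha0 : 0 < a0)
    (hA : ∀ (l : ℕ) (Y' : Finset Y), ∃ n : ℕ, l ≤ n ∧ ∀ x : S, n ≤ x.1.1.natAbs + l →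
      x.1.1.natAbs ≤ n → x.1.2 ∈ Y' → a0 ≤ |a x|)
    (ν : Measure ℝ) [IsProbabilityMeasure ν] (K : ℝ) (hK : ν (Icc (-K) K)ᶜ = 0)
    (hν : ∀ r : ℝ, ν {r} ≠ 1) :
    ∀ᵐ ω ∂(Measure.infinitePi fun _ : S => ν), ∀ H : L2 S →L[ℂ] L2 S,
      (∀ u x, (H u) x = (T u) x + ((a x * ω x : ℝ) : ℂ) * u x) → Sing H := by
  apply wrap T hT a ha ha0 ν K hK hν
  set θ : ℝ := (α - 3 / 2) / 2 with hθ
  apply thin_of_soft
  refine soft_of_decay _ (e := fun x : S => x.1) Subtype.val_injective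
    (k := fun p => k p.1 p.2) (fun p => hk0 _ _) hk (a := 1 / 2 + θ) (b := 1 + θ)
    (by linarith) (by linarith) ?_ hA
  intro x y hxy
  have h1 := hdec x y hxy
  change ‖(T (ee x)) y‖ ≤ _
  rw [← (hT x y).2]
  refine h1.trans (le_of_eq ?_)
  unfold dk
  have h2 : 1 / 2 + θ + (1 + θ) = α := by
    rw [hθ]
    ring
  rw [h2]
  push_cast
  rfl

/-- the lattice, with hopping decaying in all directions but one -/
theorem part_lattice {d : ℕ} (f : ℤ → ℝ) (C α : ℝ)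
    (T : L2 (Fin (d + 1) → ℤ) →L[ℂ] L2 (Fin (d + 1) → ℤ)) (hf0 : ∀ p, 0 ≤ f p)
    (hf : Summable f) (hα : 1 + ((d : ℝ) + 1) / 2 < α)
    (hT : ∀ x y, ((T (ee y)) x).im = 0 ∧ (T (ee y)) x = (T (ee x)) y)
    (hdec : ∀ (i : Fin (d + 1)) (x y : Fin (d + 1) → ℤ), (∀ j, j < i → x j = y j) → x i ≠ y i →
      ‖(T (ee y)) x‖ ≤ C * (1 + ‖x - y‖) ^ (-α) *
        ∏ j ∈ Finset.univ.filter (fun j => i < j), f (x j))
    (ν : Measure ℝ) [IsProbabilityMeasure ν] (K : ℝ) (hK : ν (Icc (-K) K)ᶜ = 0)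
    (hν : ∀ r : ℝ, ν {r} ≠ 1) :
    ∀ᵐ ω ∂(Measure.infinitePi fun _ : Fin (d + 1) → ℤ => ν),
      ∀ H : L2 (Fin (d + 1) → ℤ) →L[ℂ] L2 (Fin (d + 1) → ℤ),
      (∀ u x, (H u) x = (T u) x + ((ω x : ℝ) : ℂ) * u x) → Sing H := by
  set M : ℝ := 1 + ∑' p, f p with hM
  have hS0 : 0 ≤ ∑' p, f p := tsum_nonneg hf0
  have hM1 : 1 ≤ M := by linarith
  have hM0 : 0 < M := by linarith
  set θ : ℝ := (α - 1 - ((d : ℝ) + 1) / 2) / 2 with hθ
  have hθ0 : 0 < θ := by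
    rw [hθ]
    linarith
  have hw := wrap T hT (fun _ => (1 : ℝ)) (fun _ => by rw [abs_one]) one_pos ν K hK hν ?_
  · filter_upwards [hw] with ω hω H hH
    apply hω H
    intro u x
    rw [hH u x, one_mul]
  refine thin_of_lattice _ (Nat.succ_ne_zero d) (f := fun p => f p / M)
    (fun p => div_nonneg (hf0 p) hM0.le) (fun p => ?_) (hf.div_const M)
    (C := |C| * M ^ (d + 1)) (by positivity) (a := ((d : ℝ) + 1) / 2 + θ) (b := 1 + θ) ?_
    (by linarith) ?_ (fun x => by simp)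
  · rw [div_le_one hM0]
    have := hf.le_tsum p fun q _ => hf0 q
    linarith
  · push_cast
    linarith
  · intro i x y h1 h2
    change ‖(T (ee x)) y‖ ≤ _
    rw [← (hT x y).2]
    refine (hdec i x y h1 h2).trans ?_
    have h3 : ((d : ℝ) + 1) / 2 + θ + (1 + θ) = α := by
      rw [hθ]
      ring
    rw [h3]
    have h4 : dk α ‖x - y‖ = (1 + ‖x - y‖) ^ (-α) := by
      unfold dk
      rw [abs_of_nonneg (norm_nonneg _)]
    rw [h4, Finset.prod_div_distrib, Finset.prod_const]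
    set r : ℝ := (1 + ‖x - y‖) ^ (-α) with hr
    have hr0 : 0 ≤ r := Real.rpow_nonneg (by positivity) _
    set Q : ℝ := ∏ j ∈ Finset.univ.filter (fun j => i < j), f (x j) with hQ
    have hQ0 : 0 ≤ Q := Finset.prod_nonneg fun j _ => hf0 _
    set m := (Finset.univ.filter (fun j : Fin (d + 1) => i < j)).card with hm
    have hmd : m ≤ d + 1 := by
      have := Finset.card_filter_le (Finset.univ : Finset (Fin (d + 1))) (fun j => i < j)
      rw [Finset.card_univ, Fintype.card_fin] at this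
      exact this
    have h5 : M ^ m ≤ M ^ (d + 1) := pow_le_pow_right₀ hM1 hmd
    have h6 : 0 < M ^ m := by positivity
    calc C * r * Q ≤ |C| * r * Q := by
          apply mul_le_mul_of_nonneg_right _ hQ0
          exact mul_le_mul_of_nonneg_right (le_abs_self C) hr0
      _ = |C| * M ^ m * r * (Q / M ^ m) := by field_simp
      _ ≤ |C| * M ^ (d + 1) * r * (Q / M ^ m) := by
          apply mul_le_mul_of_nonneg_right _ (div_nonneg hQ0 h6.le)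
          apply mul_le_mul_of_nonneg_right _ hr0
          exact mul_le_mul_of_nonneg_left h5 (abs_nonneg C)

end Pool.Agent.Q291.SB
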