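import Pool.Agent.Q291.SB.Fin

set_option autoImplicit false

/-! The nearest neighbour Anderson model with decaying hopping in all directions but one. -/

open MeasureTheory Filter Topology Set
open scoped ENNReal NNReal InnerProductSpace
open Pool.Agent.TH980.IM.PR
open Pool.Agent.TH980.IM (cl cl_abs cl_eq)
open Pool.Agent.Q233.BN

namespace Pool.Agent.Q291.SB

variable {d : ℕ}

/-- the weighted discrete Laplacian -/
def wlap (c : Fin (d + 1) → (Fin (d + 1) → ℤ) → ℝ) (g : (Fin (d + 1) → ℤ) → ℂ)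
    (x : Fin (d + 1) → ℤ) : ℂ :=
  ∑ i : Fin (d + 1), ((c i x : ℂ) * (g (x + Pi.single i (1 : ℤ)) - g x) +
    (c i (x - Pi.single i (1 : ℤ)) : ℂ) * (g (x - Pi.single i (1 : ℤ)) - g x))

theorem wlap_symm (c : Fin (d + 1) → (Fin (d + 1) → ℤ) → ℝ) (x y : Fin (d + 1) → ℤ) :
    wlap c (fun z => if z = y then (1 : ℂ) else 0) x =
      wlap c (fun z => if z = x then (1 : ℂ) else 0) y := by
  rcases eq_or_ne x y with rfl | hxy
  · rfl
  unfold wlap
  refine Finset.sum_congr rfl fun i _ => ?_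
  beta_reduce
  rw [if_neg hxy, if_neg hxy.symm]
  have e1 : (x + Pi.single i (1 : ℤ) = y) ↔ (y - Pi.single i (1 : ℤ) = x) := by
    constructor
    · intro h; rw [← h]; abel
    · intro h; rw [← h]; abel
  have e2 : (x - Pi.single i (1 : ℤ) = y) ↔ (y + Pi.single i (1 : ℤ) = x) := by
    constructor
    · intro h; rw [← h]; abel
    · intro h; rw [← h]; abel
  by_cases h1 : x + Pi.single i (1 : ℤ) = y
  · have h1' := e1.1 h1
    by_cases h2 : x - Pi.single i (1 : ℤ) = y
    · have h2' := e2.1 h2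
      rw [if_pos h1, if_pos h2, if_pos h1', if_pos h2', h1', h2]
      ring
    · rw [if_pos h1, if_neg h2, if_pos h1', if_neg (fun h => h2 (e2.2 h)), h1']
      ring
  · by_cases h2 : x - Pi.single i (1 : ℤ) = y
    · have h2' := e2.1 h2
      rw [if_neg h1, if_pos h2, if_neg (fun h => h1 (e1.2 h)), if_pos h2', h2]
      ring
    · rw [if_neg h1, if_neg h2, if_neg (fun h => h1 (e1.2 h)), if_neg (fun h => h2 (e2.2 h))]
      ring

theorem wlap_real (c : Fin (d + 1) → (Fin (d + 1) → ℤ) → ℝ) (x y : Fin (d + 1) → ℤ) :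
    (wlap c (fun z => if z = y then (1 : ℂ) else 0) x).im = 0 := by
  unfold wlap
  rw [Complex.im_sum]
  refine Finset.sum_eq_zero fun i _ => ?_
  have h : ∀ p : Prop, [Decidable p] → (if p then (1 : ℂ) else 0).im = 0 := by
    intro p _
    split_ifs <;> simp
  simp only [Complex.add_im, Complex.mul_im, Complex.sub_im, Complex.ofReal_re,
    Complex.ofReal_im, h]
  ring

theorem norm_step (i : Fin (d + 1)) :
    ‖(Pi.single i (1 : ℤ) : Fin (d + 1) → ℤ)‖ ≤ 1 := by
  rw [pi_norm_le_iff_of_nonneg zero_le_one]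
  intro j
  rcases eq_or_ne j i with rfl | h
  · rw [Pi.single_eq_same]
    simp
  · rw [Pi.single_eq_of_ne h]
    simp

theorem wlap_bound {c : Fin (d + 1) → (Fin (d + 1) → ℤ) → ℝ} {f : ℤ → ℝ}
    (hf0 : ∀ p, 0 ≤ f p) {C : ℝ} {α : ℝ} (hα : 0 ≤ α)
    (hc : ∀ i x, |c i x| ≤ C * ∏ j ∈ Finset.univ.filter (fun j => i < j), f (x j))
    (i : Fin (d + 1)) (x y : Fin (d + 1) → ℤ) (hi : x i ≠ y i) :
    ‖wlap c (fun z => if z = y then (1 : ℂ) else 0) x‖ ≤
      (2 * |C| * 2 ^ α) * (1 + ‖x - y‖) ^ (-α) *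
        ∏ j ∈ Finset.univ.filter (fun j => i < j), f (x j) := by
  have hxy : x ≠ y := fun h => hi (by rw [h])
  set Q : ℝ := ∏ j ∈ Finset.univ.filter (fun j => i < j), f (x j) with hQ
  have hQ0 : 0 ≤ Q := Finset.prod_nonneg fun j _ => hf0 _
  have hr0 : 0 ≤ (1 + ‖x - y‖) ^ (-α) := Real.rpow_nonneg (by positivity) _
  have hRHS : 0 ≤ (2 * |C| * 2 ^ α) * (1 + ‖x - y‖) ^ (-α) * Q := by positivity
  -- only the direction `i` matters
  have h1 : wlap c (fun z => if z = y then (1 : ℂ) else 0) x =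
      (c i x : ℂ) * (if x + Pi.single i (1 : ℤ) = y then 1 else 0) +
        (c i (x - Pi.single i (1 : ℤ)) : ℂ) *
          (if x - Pi.single i (1 : ℤ) = y then 1 else 0) := by
    unfold wlap
    rw [Finset.sum_eq_single i]
    · beta_reduce
      rw [if_neg hxy, sub_zero, sub_zero]
    · intro k _ hk
      beta_reduce
      rw [if_neg hxy, if_neg, if_neg]
      · ring
      · intro h
        apply hi
        have := congrFun h i
        rwa [Pi.sub_apply, Pi.single_eq_of_ne hk.symm, sub_zero] at this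
      · intro h
        apply hi
        have := congrFun h i
        rwa [Pi.add_apply, Pi.single_eq_of_ne hk.symm, add_zero] at this
    · intro h
      exact absurd (Finset.mem_univ i) h
  rw [h1]
  by_cases hn : x + Pi.single i (1 : ℤ) = y ∨ x - Pi.single i (1 : ℤ) = y
  · have hnorm : ‖x - y‖ ≤ 1 := by
      rcases hn with h | h
      · have e : x - y = -Pi.single i (1 : ℤ) := by rw [← h]; abel
        rw [e, norm_neg]
        exact norm_step i
      · have e : x - y = Pi.single i (1 : ℤ) := by rw [← h]; abel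
        rw [e]
        exact norm_step i
    have hr : 1 ≤ 2 ^ α * (1 + ‖x - y‖) ^ (-α) := by
      have h2 : (2 : ℝ) ^ (-α) ≤ (1 + ‖x - y‖) ^ (-α) :=
        Real.rpow_le_rpow_of_nonpos (by positivity) (by linarith) (by linarith)
      have h3 : (2 : ℝ) ^ α * 2 ^ (-α) = 1 := by
        rw [← Real.rpow_add (by norm_num), add_neg_cancel, Real.rpow_zero]
      calc (1 : ℝ) = 2 ^ α * 2 ^ (-α) := h3.symm
        _ ≤ _ := mul_le_mul_of_nonneg_left h2 (by positivity)
    have hc1 : |c i x| ≤ |C| * Q :=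
      (hc i x).trans (mul_le_mul_of_nonneg_right (le_abs_self C) hQ0)
    have hc2 : |c i (x - Pi.single i (1 : ℤ))| ≤ |C| * Q := by
      refine (hc i _).trans ?_
      have e : ∏ j ∈ Finset.univ.filter (fun j => i < j),
          f ((x - Pi.single i (1 : ℤ) : Fin (d + 1) → ℤ) j) = Q := by
        refine Finset.prod_congr rfl fun j hj => ?_
        have hj' : i < j := (Finset.mem_filter.1 hj).2
        rw [Pi.sub_apply, Pi.single_eq_of_ne hj'.ne', sub_zero]
      rw [e]
      exact mul_le_mul_of_nonneg_right (le_abs_self C) hQ0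
    have hb : ∀ (t : ℝ) (p : Prop) [Decidable p], |t| ≤ |C| * Q →
        ‖(t : ℂ) * (if p then 1 else 0)‖ ≤ |C| * Q := by
      intro t p _ ht
      rw [norm_mul, Complex.norm_real, Real.norm_eq_abs]
      split_ifs
      · rw [norm_one, mul_one]
        exact ht
      · rw [norm_zero, mul_zero]
        positivity
    calc _ ≤ |C| * Q + |C| * Q := (norm_add_le _ _).trans (add_le_add (hb _ _ hc1) (hb _ _ hc2))
      _ = (2 * |C| * Q) * 1 := by ring
      _ ≤ (2 * |C| * Q) * (2 ^ α * (1 + ‖x - y‖) ^ (-α)) :=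
          mul_le_mul_of_nonneg_left hr (by positivity)
      _ = _ := by ring
  · push Not at hn
    rw [if_neg hn.1, if_neg hn.2, mul_zero, mul_zero, add_zero, norm_zero]
    exact hRHS

theorem part_weighted (f : ℤ → ℝ) (C : ℝ) (c : Fin (d + 1) → (Fin (d + 1) → ℤ) → ℝ)
    (hf0 : ∀ p, 0 ≤ f p) (hf : Summable f)
    (hc : ∀ i x, |c i x| ≤ C * ∏ j ∈ Finset.univ.filter (fun j => i < j), f (x j))
    (ν : Measure ℝ) [IsProbabilityMeasure ν] (K : ℝ) (hK : ν (Icc (-K) K)ᶜ = 0)
    (hν : ∀ r : ℝ, ν {r} ≠ 1) :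
    ∀ᵐ ω ∂(Measure.infinitePi fun _ : Fin (d + 1) → ℤ => ν),
      ∀ H : L2 (Fin (d + 1) → ℤ) →L[ℂ] L2 (Fin (d + 1) → ℤ),
      (∀ u x, (H u) x = -wlap c (fun y => u y) x + ((ω x : ℝ) : ℂ) * u x) → Sing H := by
  have hKae : ∀ᵐ v ∂ν, |v| ≤ K := by
    rw [ae_iff]
    refine measure_mono_null ?_ hK
    intro v hv hv'
    exact hv (abs_le.2 hv')
  have hKall : ∀ᵐ V ∂(Measure.infinitePi fun _ : Fin (d + 1) → ℤ => ν), ∀ x, |V x| ≤ K := by
    rw [ae_all_iff]
    intro x
    exact (measurePreserving_eval_infinitePi (fun _ : Fin (d + 1) → ℤ => ν)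
      x).quasiMeasurePreserving.ae hKae
  by_cases hex : ∃ T : L2 (Fin (d + 1) → ℤ) →L[ℂ] L2 (Fin (d + 1) → ℤ),
      ∀ u x, (T u) x = -wlap c (fun y => u y) x
  · obtain ⟨T, hT⟩ := hex
    have hTe : ∀ x y, (T (ee y)) x = -wlap c (fun z => if z = y then (1 : ℂ) else 0) x := by
      intro x y
      rw [hT]
      congr 2
      funext z
      exact ee_apply y z
    have hp := part_lattice f (2 * |C| * 2 ^ (2 + ((d : ℝ) + 1) / 2)) (2 + ((d : ℝ) + 1) / 2) T
      hf0 hf (by linarith) (fun x y => ⟨by rw [hTe, Complex.neg_im, wlap_real, neg_zero],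
        by rw [hTe, hTe, wlap_symm]⟩) (fun i x y _ h2 => by
        rw [hTe, norm_neg]
        exact wlap_bound hf0 (by positivity) hc i x y h2) ν K hK hν
    filter_upwards [hp] with V hV H hH
    apply hV H
    intro u x
    rw [hH, hT]
  · filter_upwards [hKall] with V hV H hH
    exfalso
    apply hex
    obtain ⟨D, hD⟩ := exists_dg (fun _ : Fin (d + 1) → ℤ => (1 : ℝ))
      (fun x => by rw [abs_one]) K V
    refine ⟨H - D, fun u x => ?_⟩
    change (H u) x - (D u) x = _
    rw [hH, hD, one_mul, cl_eq (hV x)]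
    ring

end Pool.Agent.Q291.SB
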