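import Pool.Agent.Q291.SB.Quasi

set_option autoImplicit false

/-! The leaks of boxes for quasi-one-dimensional operators. -/

open Filter Topology Set
open scoped ENNReal
open Pool.Agent.Q233.BN

namespace Pool.Agent.Q291.SB

section

variable {ι Y : Type} [DecidableEq ι] [DecidableEq Y]

theorem prod_le {e : ι → ℤ × Y} (he : Function.Injective e) (s : Finset ι) (F : ℤ → ℝ) (G : Y → ℝ)
    (hF : ∀ p, 0 ≤ F p) (hG : ∀ q, 0 ≤ G q) :
    ∑ x ∈ s, F (e x).1 * G (e x).2 ≤
      (∑ p ∈ s.image (fun x => (e x).1), F p) * ∑ q ∈ s.image (fun x => (e x).2), G q := by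
  have h1 : ∑ x ∈ s, F (e x).1 * G (e x).2 = ∑ z ∈ s.image e, F z.1 * G z.2 := by
    rw [Finset.sum_image fun a _ b _ h => he h]
  rw [h1, Finset.sum_mul_sum, ← Finset.sum_product']
  apply Finset.sum_le_sum_of_subset_of_nonneg
  · intro z hz
    obtain ⟨x, hx, rfl⟩ := Finset.mem_image.1 hz
    exact Finset.mem_product.2 ⟨Finset.mem_image.2 ⟨x, hx, rfl⟩, Finset.mem_image.2 ⟨x, hx, rfl⟩⟩
  · exact fun z _ _ => mul_nonneg (hF _) (hG _)

/-- the kernel outside `L` -/
noncomputable def kL (k : Y × Y → ℝ) (L : Finset Y) (p : Y × Y) : ℝ := if p.2 ∈ L then 0 else k p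

theorem kL_nonneg {k : Y × Y → ℝ} (hk0 : ∀ p, 0 ≤ k p) (L : Finset Y) (p : Y × Y) :
    0 ≤ kL k L p := by
  unfold kL
  split_ifs
  · exact le_rfl
  · exact hk0 p

theorem kL_le {k : Y × Y → ℝ} (hk0 : ∀ p, 0 ≤ k p) (L : Finset Y) (p : Y × Y) :
    kL k L p ≤ k p := by
  unfold kL
  split_ifs
  · exact hk0 p
  · exact le_rfl

theorem kL_sum {k : Y × Y → ℝ} (hk0 : ∀ p, 0 ≤ k p) (hk : Summable k) (L : Finset Y) (x : Y) :
    Summable fun y => kL k L (x, y) :=
  Summable.of_nonneg_of_le (fun y => kL_nonneg hk0 L _) (fun y => kL_le hk0 L _)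
    (hk.prod_factor x)

/-- the row sums -/
noncomputable def KK (k : Y × Y → ℝ) (x : Y) : ℝ := ∑' y, k (x, y)

/-- the row sums outside `L` -/
noncomputable def KL (k : Y × Y → ℝ) (L : Finset Y) (x : Y) : ℝ := ∑' y, kL k L (x, y)

theorem KK_nonneg {k : Y × Y → ℝ} (hk0 : ∀ p, 0 ≤ k p) (x : Y) : 0 ≤ KK k x :=
  tsum_nonneg fun _ => hk0 _

theorem KL_nonneg {k : Y × Y → ℝ} (hk0 : ∀ p, 0 ≤ k p) (L : Finset Y) (x : Y) : 0 ≤ KL k L x :=
  tsum_nonneg fun _ => kL_nonneg hk0 L _

theorem KK_summable {k : Y × Y → ℝ} (hk : Summable k) : Summable (KK k) := hk.prod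

theorem exists_L {k : Y × Y → ℝ} (hk0 : ∀ p, 0 ≤ k p) (hk : Summable k) {ε : ℝ} (hε : 0 < ε)
    (L0 : Finset Y) :
    ∃ L : Finset Y, L0 ⊆ L ∧ ∀ s : Finset Y, ∑ x ∈ s, KL k L x ≤ ε := by
  obtain ⟨Q, hQ⟩ := summable_iff_vanishing_norm.1 hk ε hε
  refine ⟨L0 ∪ Q.image Prod.snd, Finset.subset_union_left, fun s => ?_⟩
  set L := L0 ∪ Q.image Prod.snd with hL
  unfold KL
  rw [← Summable.tsum_finsetSum fun x _ => kL_sum hk0 hk L x]
  apply Summable.tsum_le_of_sum_le
  · exact summable_sum fun x _ => kL_sum hk0 hk L x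
  · intro t
    have h1 : ∑ y ∈ t, ∑ x ∈ s, kL k L (x, y) = ∑ p ∈ s ×ˢ (t.filter fun y => y ∉ L), k p := by
      rw [Finset.sum_product_right, Finset.sum_filter]
      refine Finset.sum_congr rfl fun y _ => ?_
      by_cases hy : y ∈ L
      · rw [if_neg (not_not.2 hy)]
        refine Finset.sum_eq_zero fun x _ => ?_
        unfold kL
        rw [if_pos hy]
      · rw [if_pos hy]
        refine Finset.sum_congr rfl fun x _ => ?_
        unfold kL
        rw [if_neg hy]
    rw [h1]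
    have h2 : Disjoint (s ×ˢ (t.filter fun y => y ∉ L)) Q := by
      rw [Finset.disjoint_left]
      intro p hp hpQ
      have h3 := (Finset.mem_filter.1 (Finset.mem_product.1 hp).2).2
      apply h3
      rw [hL]
      exact Finset.mem_union_right _ (Finset.mem_image.2 ⟨p, hpQ, rfl⟩)
    exact (le_abs_self _).trans (hQ _ h2).le

end

section

variable {ι Y : Type} [DecidableEq ι] [DecidableEq Y] (P : Data ι) {e : ι → ℤ × Y}
  (he : Function.Injective e)

/-- the box -/
noncomputable def box (n : ℕ) (L : Finset Y) : Finset ι :=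
  ((Finset.Icc (-(n : ℤ)) n) ×ˢ L).preimage e he.injOn

theorem mem_box {n : ℕ} {L : Finset Y} {x : ι} :
    x ∈ box he n L ↔ (e x).1.natAbs ≤ n ∧ (e x).2 ∈ L := by
  unfold box
  rw [Finset.mem_preimage, Finset.mem_product, Finset.mem_Icc]
  refine and_congr_left fun _ => ?_
  omega

theorem leak_le {k : Y × Y → ℝ} (hk0 : ∀ p, 0 ≤ k p) (hk : Summable k) {a b : ℝ}
    (ha : 1 / 2 < a) (hb : 1 < b)
    (hT : ∀ x y, x ≠ y → ‖(P.T (ee x)) y‖ ≤
      k ((e x).2, (e y).2) * dk (a + b) (((e x).1 - (e y).1 : ℤ) : ℝ))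
    (n : ℕ) (L : Finset Y) {x : ι} (hx : x ∈ box he n L) :
    ‖ow P (box he n L) x‖ ≤ √(∑' q : ℤ, dk (a + a) q) *
      (dk b ((n - (e x).1.natAbs : ℕ) : ℝ) * KK k (e x).2 + KL k L (e x).2) := by
  set A : ℝ := ∑' q : ℤ, dk (a + a) q with hA
  have hA0 : 0 ≤ A := tsum_nonneg fun _ => (dk_pos _ _).le
  set β : ℝ := dk b ((n - (e x).1.natAbs : ℕ) : ℝ) with hβ
  have hβ0 : 0 < β := dk_pos _ _
  set Z : Y → ℝ := fun q => β * k ((e x).2, q) + kL k L ((e x).2, q) with hZ
  have hZ0 : ∀ q, 0 ≤ Z q := fun q =>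
    add_nonneg (mul_nonneg hβ0.le (hk0 _)) (kL_nonneg hk0 L _)
  have hZs : Summable Z := ((hk.prod_factor (e x).2).mul_left β).add (kL_sum hk0 hk L _)
  have hZt : ∑' q, Z q = β * KK k (e x).2 + KL k L (e x).2 := by
    rw [hZ, Summable.tsum_add ((hk.prod_factor (e x).2).mul_left β) (kL_sum hk0 hk L _),
      tsum_mul_left]
    rfl
  have hpt : ∀ y, ‖(ow P (box he n L) x) y‖ ^ 2 ≤
      dk (a + a) (((e x).1 - (e y).1 : ℤ) : ℝ) * (Z (e y).2) ^ 2 := by
    intro y
    have h1 : ‖(ow P (box he n L) x) y‖ ≤ Z (e y).2 * dk a (((e x).1 - (e y).1 : ℤ) : ℝ) := by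
      rw [ow_apply]
      split_ifs with hy
      · rw [norm_zero]
        exact mul_nonneg (hZ0 _) (dk_pos _ _).le
      · have hxy : x ≠ y := by
          rintro rfl
          exact hy hx
        refine (hT x y hxy).trans ?_
        rw [dk_add, mul_comm (dk a _), ← mul_assoc]
        apply mul_le_mul_of_nonneg_right _ (dk_pos _ _).le
        rw [mem_box] at hx hy
        by_cases h2 : (e y).1.natAbs ≤ n
        · have h3 : (e y).2 ∉ L := fun h => hy ⟨h2, h⟩
          have h4 : kL k L ((e x).2, (e y).2) = k ((e x).2, (e y).2) := by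
            unfold kL
            rw [if_neg h3]
          calc k ((e x).2, (e y).2) * dk b (((e x).1 - (e y).1 : ℤ) : ℝ)
              ≤ k ((e x).2, (e y).2) * 1 :=
                mul_le_mul_of_nonneg_left (dk_le_one (by linarith) _) (hk0 _)
            _ = kL k L ((e x).2, (e y).2) := by rw [h4, mul_one]
            _ ≤ Z (e y).2 := by
                rw [hZ]
                have := mul_nonneg hβ0.le (hk0 ((e x).2, (e y).2))
                simp only
                linarith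
        · have h5 : dk b (((e x).1 - (e y).1 : ℤ) : ℝ) ≤ β := by
            apply dk_mono (by linarith)
            rw [Nat.abs_cast, ← Int.cast_abs]
            have h6 : ((n - (e x).1.natAbs : ℕ) : ℤ) ≤ |(e x).1 - (e y).1| := by
              have h7 := hx.1
              rw [Int.abs_eq_natAbs]
              omega
            exact_mod_cast h6
          calc k ((e x).2, (e y).2) * dk b (((e x).1 - (e y).1 : ℤ) : ℝ)
              ≤ k ((e x).2, (e y).2) * β := mul_le_mul_of_nonneg_left h5 (hk0 _)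
            _ ≤ Z (e y).2 := by
                rw [hZ]
                have := kL_nonneg hk0 L ((e x).2, (e y).2)
                simp only
                linarith
    calc ‖(ow P (box he n L) x) y‖ ^ 2
        ≤ (Z (e y).2 * dk a (((e x).1 - (e y).1 : ℤ) : ℝ)) ^ 2 :=
          pow_le_pow_left₀ (norm_nonneg _) h1 2
      _ = _ := by
          rw [dk_add]
          ring
  have hsq : ‖ow P (box he n L) x‖ ^ 2 ≤ A * (β * KK k (e x).2 + KL k L (e x).2) ^ 2 := by
    rw [norm_sq_tsum]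
    apply (summable_sq _).tsum_le_of_sum_le
    intro s
    refine (Finset.sum_le_sum fun y _ => hpt y).trans ?_
    refine (prod_le he s (fun p => dk (a + a) (((e x).1 - p : ℤ) : ℝ)) (fun q => (Z q) ^ 2)
      (fun _ => (dk_pos _ _).le) (fun _ => sq_nonneg _)).trans ?_
    apply mul_le_mul
    · exact dk_shift (by linarith) _ _
    · have h7 : ∑ q ∈ s.image (fun y => (e y).2), Z q ^ 2 ≤
          (∑ q ∈ s.image (fun y => (e y).2), Z q) ^ 2 :=
        Finset.sum_sq_le_sq_sum_of_nonneg fun q _ => hZ0 q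
      refine h7.trans ?_
      apply pow_le_pow_left₀ (Finset.sum_nonneg fun q _ => hZ0 q)
      rw [← hZt]
      exact hZs.sum_le_tsum _ fun q _ => hZ0 q
    · exact Finset.sum_nonneg fun q _ => sq_nonneg _
    · exact hA0
  have h8 : 0 ≤ β * KK k (e x).2 + KL k L (e x).2 :=
    add_nonneg (mul_nonneg hβ0.le (KK_nonneg hk0 _)) (KL_nonneg hk0 _ _)
  have h9 : (√A * (β * KK k (e x).2 + KL k L (e x).2)) ^ 2 =
      A * (β * KK k (e x).2 + KL k L (e x).2) ^ 2 := by
    rw [mul_pow, Real.sq_sqrt hA0]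
  rw [← h9] at hsq
  exact (abs_le_of_sq_le_sq' hsq (mul_nonneg (Real.sqrt_nonneg _) h8)).2

end

end Pool.Agent.Q291.SB
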