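import Mathlib

set_option autoImplicit false

/-! Random signs: second and fourth moments, and the inequality of Paley and Zygmund. -/

open Finset

namespace Pool.Agent.Q291.SB

variable {α : Type} [DecidableEq α]

/-- the signed sum of the vectors, with the sign minus on `A` -/
def sg {X : Type} [AddCommGroup X] (s A : Finset α) (w : α → X) : X :=
  ∑ i ∈ s, if i ∈ A then -w i else w i

theorem sg_insert {X : Type} [AddCommGroup X] {s A : Finset α} {a : α} (ha : a ∉ s)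
    (hA : A ⊆ s) (w : α → X) : sg (insert a s) A w = w a + sg s A w := by
  unfold sg
  rw [Finset.sum_insert ha, if_neg fun h => ha (hA h)]

theorem sg_insert' {X : Type} [AddCommGroup X] {s A : Finset α} {a : α} (ha : a ∉ s)
    (w : α → X) : sg (insert a s) (insert a A) w = -w a + sg s A w := by
  unfold sg
  rw [Finset.sum_insert ha, if_pos (mem_insert_self a A)]
  congr 1
  refine Finset.sum_congr rfl fun i hi => ?_
  have hia : i ≠ a := fun h => ha (h ▸ hi)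
  have : i ∈ insert a A ↔ i ∈ A := by
    rw [mem_insert]
    exact ⟨fun h => h.resolve_left hia, Or.inr⟩
  simp only [this]

theorem moment_two {X : Type} [NormedAddCommGroup X] [InnerProductSpace ℂ X] (s : Finset α)
    (w : α → X) : ∑ A ∈ s.powerset, ‖sg s A w‖ ^ 2 = 2 ^ s.card * ∑ i ∈ s, ‖w i‖ ^ 2 := by
  induction s using Finset.induction with
  | empty => simp [sg]
  | insert a s ha ih =>
    rw [sum_powerset_insert ha, sum_insert ha, card_insert_of_notMem ha]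
    have h1 : ∑ A ∈ s.powerset, ‖sg (insert a s) A w‖ ^ 2 +
        ∑ A ∈ s.powerset, ‖sg (insert a s) (insert a A) w‖ ^ 2 =
        ∑ A ∈ s.powerset, (2 * ‖w a‖ ^ 2 + 2 * ‖sg s A w‖ ^ 2) := by
      rw [← sum_add_distrib]
      refine sum_congr rfl fun A hA => ?_
      rw [sg_insert ha (mem_powerset.1 hA), sg_insert' ha]
      have h2 := parallelogram_law_with_norm ℂ (sg s A w) (w a)
      have e1 : w a + sg s A w = sg s A w + w a := by abel
      have e2 : -w a + sg s A w = sg s A w - w a := by abel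
      rw [e1, e2]
      nlinarith [h2]
    rw [h1, sum_add_distrib, ← mul_sum, ← mul_sum, ih, sum_const, card_powerset, nsmul_eq_mul]
    push_cast
    ring

theorem four (c S : ℂ) : ‖c + S‖ ^ 4 + ‖-c + S‖ ^ 4 ≤
    2 * ‖S‖ ^ 4 + 12 * ‖c‖ ^ 2 * ‖S‖ ^ 2 + 2 * ‖c‖ ^ 4 := by
  have e : ∀ z : ℂ, ‖z‖ ^ 4 = (Complex.normSq z) ^ 2 := by
    intro z
    rw [Complex.normSq_eq_norm_sq]
    ring
  have e2 : ∀ z : ℂ, ‖z‖ ^ 2 = Complex.normSq z := fun z => (Complex.normSq_eq_norm_sq z).symm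
  rw [e, e, e, e, e2, e2]
  simp only [Complex.normSq_apply, Complex.add_re, Complex.add_im, Complex.neg_re, Complex.neg_im]
  nlinarith [sq_nonneg (c.re * S.im - c.im * S.re), sq_nonneg (c.re * S.re + c.im * S.im)]

theorem moment_four (s : Finset α) (c : α → ℂ) :
    ∑ A ∈ s.powerset, ‖sg s A c‖ ^ 4 ≤ 2 ^ s.card * (3 * (∑ i ∈ s, ‖c i‖ ^ 2) ^ 2) := by
  induction s using Finset.induction with
  | empty => simp [sg]
  | insert a s ha ih =>
    rw [sum_powerset_insert ha, sum_insert ha, card_insert_of_notMem ha]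
    have h1 : ∑ A ∈ s.powerset, ‖sg (insert a s) A c‖ ^ 4 +
        ∑ A ∈ s.powerset, ‖sg (insert a s) (insert a A) c‖ ^ 4 ≤
        ∑ A ∈ s.powerset, (2 * ‖sg s A c‖ ^ 4 + 12 * ‖c a‖ ^ 2 * ‖sg s A c‖ ^ 2 +
          2 * ‖c a‖ ^ 4) := by
      rw [← sum_add_distrib]
      refine sum_le_sum fun A hA => ?_
      rw [sg_insert ha (mem_powerset.1 hA), sg_insert' ha]
      exact four _ _
    refine h1.trans ?_
    rw [sum_add_distrib, sum_add_distrib, ← mul_sum, ← mul_sum, moment_two, sum_const,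
      card_powerset, nsmul_eq_mul]
    push_cast
    set σ := ∑ i ∈ s, ‖c i‖ ^ 2
    have h2 : (0 : ℝ) < 2 ^ s.card := by positivity
    have h3 : 0 ≤ (2 : ℝ) ^ s.card * ‖c a‖ ^ 4 := by positivity
    have e : (2 : ℝ) ^ (s.card + 1) = 2 * 2 ^ s.card := by ring
    rw [e]
    have h4 : 2 * 2 ^ s.card * (3 * (‖c a‖ ^ 2 + σ) ^ 2) -
        (2 * (2 ^ s.card * (3 * σ ^ 2)) + 12 * ‖c a‖ ^ 2 * (2 ^ s.card * σ) +
          2 ^ s.card * (2 * ‖c a‖ ^ 4)) = 4 * (2 ^ s.card * ‖c a‖ ^ 4) := by ring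
    linarith

/-- the inequality of Paley and Zygmund for the signed sums -/
theorem paley (s : Finset α) (c : α → ℂ) :
    (2 : ℝ) ^ s.card ≤
      12 * ((s.powerset.filter fun A => (∑ i ∈ s, ‖c i‖ ^ 2) / 2 ≤ ‖sg s A c‖ ^ 2).card : ℝ) := by
  set σ := ∑ i ∈ s, ‖c i‖ ^ 2 with hσ
  set G := s.powerset.filter fun A => σ / 2 ≤ ‖sg s A c‖ ^ 2 with hG
  have hσ0 : 0 ≤ σ := sum_nonneg fun i _ => by positivity
  rcases hσ0.eq_or_lt with h0 | h0
  · have : G = s.powerset := by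
      rw [hG, filter_eq_self]
      intro A _
      rw [← h0]
      simp
    rw [this, card_powerset]
    push_cast
    have : (0 : ℝ) < 2 ^ s.card := by positivity
    linarith
  have h2 := moment_two s c
  have h4 := moment_four s c
  rw [← hσ] at h2 h4
  have hsplit := sum_filter_add_sum_filter_not s.powerset (fun A => σ / 2 ≤ ‖sg s A c‖ ^ 2)
    (fun A => ‖sg s A c‖ ^ 2)
  have hbad : ∑ A ∈ s.powerset.filter (fun A => ¬ σ / 2 ≤ ‖sg s A c‖ ^ 2), ‖sg s A c‖ ^ 2 ≤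
      2 ^ s.card * (σ / 2) := by
    calc ∑ A ∈ s.powerset.filter (fun A => ¬ σ / 2 ≤ ‖sg s A c‖ ^ 2), ‖sg s A c‖ ^ 2
        ≤ ∑ A ∈ s.powerset.filter (fun A => ¬ σ / 2 ≤ ‖sg s A c‖ ^ 2), σ / 2 :=
          sum_le_sum fun A hA => (not_le.1 (mem_filter.1 hA).2).le
      _ = ((s.powerset.filter (fun A => ¬ σ / 2 ≤ ‖sg s A c‖ ^ 2)).card : ℝ) * (σ / 2) := by
          rw [sum_const, nsmul_eq_mul]
      _ ≤ 2 ^ s.card * (σ / 2) := by
          apply mul_le_mul_of_nonneg_right _ (by positivity)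
          have := card_filter_le s.powerset (fun A => ¬ σ / 2 ≤ ‖sg s A c‖ ^ 2)
          rw [card_powerset] at this
          exact_mod_cast this
  have hgood : 2 ^ s.card * (σ / 2) ≤ ∑ A ∈ G, ‖sg s A c‖ ^ 2 := by
    rw [← hG, h2] at hsplit
    linarith
  have hcs := sq_sum_le_card_mul_sum_sq (s := G) (f := fun A => ‖sg s A c‖ ^ 2)
  have hsub : ∑ A ∈ G, (‖sg s A c‖ ^ 2) ^ 2 ≤ 2 ^ s.card * (3 * σ ^ 2) := by
    refine le_trans ?_ h4
    have : ∑ A ∈ G, (‖sg s A c‖ ^ 2) ^ 2 = ∑ A ∈ G, ‖sg s A c‖ ^ 4 :=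
      sum_congr rfl fun A _ => by ring
    rw [this]
    exact sum_le_sum_of_subset_of_nonneg (filter_subset _ _) fun A _ _ => by positivity
  have hp : (0 : ℝ) < 2 ^ s.card := by positivity
  have hpos : 0 ≤ 2 ^ s.card * (σ / 2) := by positivity
  have h5 : (2 ^ s.card * (σ / 2)) ^ 2 ≤ (G.card : ℝ) * (2 ^ s.card * (3 * σ ^ 2)) := by
    calc (2 ^ s.card * (σ / 2)) ^ 2 ≤ (∑ A ∈ G, ‖sg s A c‖ ^ 2) ^ 2 :=
          pow_le_pow_left₀ hpos hgood 2
      _ ≤ (G.card : ℝ) * ∑ A ∈ G, (‖sg s A c‖ ^ 2) ^ 2 := hcs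
      _ ≤ _ := mul_le_mul_of_nonneg_left hsub (by positivity)
  have h6 : (2 ^ s.card * σ ^ 2) * 2 ^ s.card ≤ (2 ^ s.card * σ ^ 2) * (12 * (G.card : ℝ)) := by
    nlinarith [h5]
  exact le_of_mul_le_mul_left h6 (by positivity)

/-- many signs for which the signed sum of the vectors is short and that of the numbers is large -/
theorem many_signs {X : Type} [NormedAddCommGroup X] [InnerProductSpace ℂ X] (s : Finset α)
    (w : α → X) (c : α → ℂ) {l : ℝ} (hl : 0 < l) (hw : ∑ i ∈ s, ‖w i‖ ^ 2 ≤ l ^ 2) :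
    (2 : ℝ) ^ s.card ≤
      24 * (((s.powerset.filter fun A => ‖sg s A w‖ ^ 2 ≤ 24 * l ^ 2).filter
        fun A => (∑ i ∈ s, ‖c i‖ ^ 2) / 2 ≤ ‖sg s A c‖ ^ 2).card : ℝ) := by
  set σ := ∑ i ∈ s, ‖c i‖ ^ 2 with hσ
  set G := s.powerset.filter fun A => σ / 2 ≤ ‖sg s A c‖ ^ 2 with hG
  set Bd := s.powerset.filter fun A => ¬ ‖sg s A w‖ ^ 2 ≤ 24 * l ^ 2 with hBd
  have h1 := paley s c
  rw [← hσ, ← hG] at h1
  have h2 : (Bd.card : ℝ) * (24 * l ^ 2) ≤ 2 ^ s.card * l ^ 2 := by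
    calc (Bd.card : ℝ) * (24 * l ^ 2) = ∑ A ∈ Bd, 24 * l ^ 2 := by rw [sum_const, nsmul_eq_mul]
      _ ≤ ∑ A ∈ Bd, ‖sg s A w‖ ^ 2 := sum_le_sum fun A hA => (not_le.1 (mem_filter.1 hA).2).le
      _ ≤ ∑ A ∈ s.powerset, ‖sg s A w‖ ^ 2 :=
          sum_le_sum_of_subset_of_nonneg (filter_subset _ _) fun A _ _ => by positivity
      _ = 2 ^ s.card * ∑ i ∈ s, ‖w i‖ ^ 2 := moment_two s w
      _ ≤ 2 ^ s.card * l ^ 2 := mul_le_mul_of_nonneg_left hw (by positivity)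
  have h3 : 24 * (Bd.card : ℝ) ≤ 2 ^ s.card := by
    have hl2 : 0 < l ^ 2 := by positivity
    have : l ^ 2 * (24 * (Bd.card : ℝ)) ≤ l ^ 2 * 2 ^ s.card := by linarith
    exact le_of_mul_le_mul_left this hl2
  have h4 : G ⊆ ((s.powerset.filter fun A => ‖sg s A w‖ ^ 2 ≤ 24 * l ^ 2).filter
      fun A => σ / 2 ≤ ‖sg s A c‖ ^ 2) ∪ Bd := by
    intro A hA
    rw [hG, mem_filter] at hA
    rw [mem_union, mem_filter, mem_filter, hBd, mem_filter]
    by_cases h : ‖sg s A w‖ ^ 2 ≤ 24 * l ^ 2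
    · exact Or.inl ⟨⟨hA.1, h⟩, hA.2⟩
    · exact Or.inr ⟨hA.1, h⟩
  have h5 := (card_le_card h4).trans (card_union_le _ _)
  have h6 : (G.card : ℝ) ≤ (((s.powerset.filter fun A => ‖sg s A w‖ ^ 2 ≤ 24 * l ^ 2).filter
      fun A => σ / 2 ≤ ‖sg s A c‖ ^ 2).card : ℝ) + (Bd.card : ℝ) := by exact_mod_cast h5
  linarith

end Pool.Agent.Q291.SB
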