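import Pool.Agent.Q233.BN.Dec
import Pool.Agent.Q291.SB.Rad

set_option autoImplicit false

/-! The weak type bound for finite families of boundary values of resolvent matrix entries. -/

open MeasureTheory Filter Topology Set Metric
open scoped ENNReal NNReal InnerProductSpace Real
open Pool.Agent.H12R2.And (Rz)
open Pool.Agent.TH980.IM.PR
open Pool.Agent.TH980.IM (zk)
open Pool.Agent.Q233.BN

namespace Pool.Agent.Q291.SB

variable {ι : Type} [DecidableEq ι] [Countable ι] (P : Data ι)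

theorem small_tail (ν : Measure ℝ) [IsProbabilityMeasure ν] {M : ℝ} (hM : 0 ≤ M) {C l κ : ℝ}
    (hC : 0 < C) (hl : 0 < l) (hκ : 10 * l * (C + 1) ≤ κ) {W : L2 ι}
    (hW : ‖W‖ ^ 2 ≤ 24 * l ^ 2) (o : ι) {h : (ι → ℝ) × ℝ → ℂ}
    (hh : ∀ᵐ q ∂(LL ι ν M), Tendsto (fun k => inner ℂ W (Rz (P.H q.1) (zk k q.2) (ee o))) atTop
      (𝓝 (h q))) :
    LL ι ν M {q | κ ^ 2 / 2 < ‖h q‖ ^ 2} ≤ ENNReal.ofReal (4 * tail 2 M C) := by
  set l' : ℝ := 5 * l with hl'
  have hl'0 : 0 < l' := by positivity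
  have hWn : ‖W‖ ≤ l' := by
    have h1 : ‖W‖ ^ 2 ≤ l' ^ 2 := by
      rw [hl']
      nlinarith [sq_nonneg l]
    exact (abs_le_of_sq_le_sq' h1 hl'0.le).2
  set u : L2 ι := ((l'⁻¹ : ℝ) : ℂ) • W with hu
  have hun : ‖u‖ + ‖(ee o : L2 ι)‖ ≤ 2 := by
    rw [norm_ee, hu, norm_smul, Complex.norm_real, Real.norm_eq_abs, abs_of_pos (inv_pos.2 hl'0)]
    have : l'⁻¹ * ‖W‖ ≤ 1 := by
      rw [inv_mul_le_iff₀ hl'0]
      linarith
    linarith
  refine (measure_mono ?_).trans (lim_tail P ν hM hC (u := u) (v := ee o) hun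
    (h := fun q => ((l'⁻¹ : ℝ) : ℂ) * h q) ?_)
  · intro q hq
    have hq' : κ ^ 2 / 2 < ‖h q‖ ^ 2 := hq
    change C + 1 < ‖((l'⁻¹ : ℝ) : ℂ) * h q‖
    rw [norm_mul, Complex.norm_real, Real.norm_eq_abs, abs_of_pos (inv_pos.2 hl'0),
      lt_inv_mul_iff₀ hl'0]
    have hκ0 : 0 < κ := lt_of_lt_of_le (by positivity) hκ
    have h2 : κ / 2 < ‖h q‖ := by
      by_contra h3
      rw [not_lt] at h3
      have h4 : ‖h q‖ ^ 2 ≤ (κ / 2) ^ 2 := pow_le_pow_left₀ (norm_nonneg _) h3 2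
      nlinarith [sq_nonneg κ]
    rw [hl']
    nlinarith
  · filter_upwards [hh] with q hq
    refine (hq.const_mul ((l'⁻¹ : ℝ) : ℂ)).congr fun k => ?_
    rw [hu, inner_smul_left, Complex.conj_ofReal]

omit [Countable ι] in
theorem inner_sg {α : Type} [DecidableEq α] (s A : Finset α) (w : α → L2 ι) (v : L2 ι) :
    inner ℂ (sg s A w) v = sg s A (fun i => inner ℂ (w i) v) := by
  unfold sg
  rw [sum_inner]
  refine Finset.sum_congr rfl fun i _ => ?_
  split_ifs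
  · rw [inner_neg_left]
  · rfl

theorem family_tail (ν : Measure ℝ) [IsProbabilityMeasure ν] {M : ℝ} (hM : 0 ≤ M) {C l κ : ℝ}
    (hC : 0 < C) (hl : 0 < l) (hκ : 10 * l * (C + 1) ≤ κ) {α : Type} [DecidableEq α]
    (s : Finset α) {w : α → L2 ι} (hw : ∑ i ∈ s, ‖w i‖ ^ 2 ≤ l ^ 2) (o : ι)
    {f : α → (ι → ℝ) × ℝ → ℂ} (hfm : ∀ i, Measurable (f i))
    (hf : ∀ᵐ q ∂(LL ι ν M), ∀ i ∈ s,
      Tendsto (fun k => inner ℂ (w i) (Rz (P.H q.1) (zk k q.2) (ee o))) atTop (𝓝 (f i q))) :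
    LL ι ν M {q | κ ^ 2 < ∑ i ∈ s, ‖f i q‖ ^ 2} ≤ 24 * ENNReal.ofReal (4 * tail 2 M C) := by
  set G := s.powerset.filter fun A => ‖sg s A w‖ ^ 2 ≤ 24 * l ^ 2 with hG
  set S : Set ((ι → ℝ) × ℝ) := {q | κ ^ 2 < ∑ i ∈ s, ‖f i q‖ ^ 2} with hS
  set R : Finset α → Set ((ι → ℝ) × ℝ) :=
    fun A => {q | κ ^ 2 / 2 < ‖sg s A (fun i => f i q)‖ ^ 2} with hRdef
  have hSm : MeasurableSet S := by
    apply measurableSet_lt measurable_const
    exact Finset.measurable_sum _ fun i _ => (hfm i).norm.pow_const 2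
  have hRm : ∀ A, MeasurableSet (R A) := by
    intro A
    apply measurableSet_lt measurable_const
    apply Measurable.pow_const
    apply Measurable.norm
    unfold sg
    apply Finset.measurable_sum
    intro i _
    split_ifs
    · exact (hfm i).neg
    · exact hfm i
  have hR : ∀ A ∈ G, LL ι ν M (R A) ≤ ENNReal.ofReal (4 * tail 2 M C) := by
    intro A hA
    apply small_tail P ν hM hC hl hκ (Finset.mem_filter.1 hA).2 o
    filter_upwards [hf] with q hq
    have h1 : Tendsto (fun k => sg s A (fun i => inner ℂ (w i)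
        (Rz (P.H q.1) (zk k q.2) (ee o)))) atTop (𝓝 (sg s A fun i => f i q)) := by
      unfold sg
      apply tendsto_finsetSum
      intro i hi
      split_ifs
      · exact (hq i hi).neg
      · exact hq i hi
    exact h1.congr fun k => (inner_sg s A w _).symm
  have hpt : ∀ q, S.indicator (fun _ => (2 : ℝ≥0∞) ^ s.card) q ≤
      24 * ∑ A ∈ G, (R A).indicator (fun _ => (1 : ℝ≥0∞)) q := by
    intro q
    by_cases hq : q ∈ S
    · rw [indicator_of_mem hq]
      have hq' : κ ^ 2 < ∑ i ∈ s, ‖f i q‖ ^ 2 := hq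
      have h1 := many_signs s w (fun i => f i q) hl hw
      rw [← hG] at h1
      set G' := G.filter fun A => (∑ i ∈ s, ‖f i q‖ ^ 2) / 2 ≤ ‖sg s A (fun i => f i q)‖ ^ 2
        with hG'
      have h2 : (G'.card : ℝ≥0∞) ≤ ∑ A ∈ G, (R A).indicator (fun _ => (1 : ℝ≥0∞)) q := by
        calc (G'.card : ℝ≥0∞) = ∑ A ∈ G', (1 : ℝ≥0∞) := by simp
          _ = ∑ A ∈ G', (R A).indicator (fun _ => (1 : ℝ≥0∞)) q := by
              refine Finset.sum_congr rfl fun A hA => ?_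
              rw [indicator_of_mem]
              have h3 := (Finset.mem_filter.1 hA).2
              change κ ^ 2 / 2 < ‖sg s A (fun i => f i q)‖ ^ 2
              linarith
          _ ≤ _ := Finset.sum_le_sum_of_subset (Finset.filter_subset _ _)
      have h4 : (2 : ℝ≥0∞) ^ s.card ≤ 24 * (G'.card : ℝ≥0∞) := by
        have h5 : (2 : ℕ) ^ s.card ≤ 24 * G'.card := by exact_mod_cast h1
        exact_mod_cast h5
      exact h4.trans (by gcongr)
    · rw [indicator_of_notMem hq]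
      exact zero_le
  have hint : (2 : ℝ≥0∞) ^ s.card * LL ι ν M S ≤ 24 * ∑ A ∈ G, LL ι ν M (R A) := by
    calc (2 : ℝ≥0∞) ^ s.card * LL ι ν M S
        = ∫⁻ q, S.indicator (fun _ => (2 : ℝ≥0∞) ^ s.card) q ∂(LL ι ν M) := by
          rw [lintegral_indicator_const hSm]
      _ ≤ ∫⁻ q, 24 * ∑ A ∈ G, (R A).indicator (fun _ => (1 : ℝ≥0∞)) q ∂(LL ι ν M) :=
          lintegral_mono hpt
      _ = 24 * ∑ A ∈ G, LL ι ν M (R A) := by
          rw [lintegral_const_mul' _ _ (by norm_num), lintegral_finsetSum]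
          · congr 1
            refine Finset.sum_congr rfl fun A _ => ?_
            rw [lintegral_indicator_const (hRm A), one_mul]
          · exact fun A _ => measurable_const.indicator (hRm A)
  have h6 : ∑ A ∈ G, LL ι ν M (R A) ≤ (2 : ℝ≥0∞) ^ s.card * ENNReal.ofReal (4 * tail 2 M C) := by
    calc ∑ A ∈ G, LL ι ν M (R A) ≤ G.card • ENNReal.ofReal (4 * tail 2 M C) :=
          Finset.sum_le_card_nsmul _ _ _ hR
      _ = (G.card : ℝ≥0∞) * ENNReal.ofReal (4 * tail 2 M C) := nsmul_eq_mul _ _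
      _ ≤ _ := by
          gcongr
          have h7 := Finset.card_filter_le s.powerset (fun A => ‖sg s A w‖ ^ 2 ≤ 24 * l ^ 2)
          rw [Finset.card_powerset] at h7
          exact_mod_cast h7
  have h8 : (2 : ℝ≥0∞) ^ s.card * LL ι ν M S ≤
      (2 : ℝ≥0∞) ^ s.card * (24 * ENNReal.ofReal (4 * tail 2 M C)) := by
    refine hint.trans ?_
    calc 24 * ∑ A ∈ G, LL ι ν M (R A)
        ≤ 24 * ((2 : ℝ≥0∞) ^ s.card * ENNReal.ofReal (4 * tail 2 M C)) := by gcongr
      _ = _ := by ring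
  exact (ENNReal.mul_le_mul_iff_right (by positivity) (by finiteness)).1 h8

end Pool.Agent.Q291.SB
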