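import Pool.Agent.Q233.BN.Fin
import Pool.Agent.Q291.SB.Weak

set_option autoImplicit false

/-! No absolutely continuous spectrum in the presence of thin cuts. -/

open MeasureTheory Filter Topology Set Metric
open scoped ENNReal NNReal InnerProductSpace Real
open Pool.Agent.H12R2.And (Rz)
open Pool.Agent.TH980.IM.PR
open Pool.Agent.TH980.IM (cl cl_eq zk zk_im_pos)
open Pool.Agent.Q233.BN

namespace Pool.Agent.Q291.SB

variable {ι : Type} [DecidableEq ι] (P : Data ι)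

/-- the thin cuts: for all positive weights tending to zero there are finite sets, each of whose
sites pays its leak or its weight, with small total cost -/
def Thin (a0 : ℝ) : Prop :=
  ∀ w : ι → ℝ, (∀ x, 0 < w x) → Tendsto w cofinite (𝓝 0) → ∀ o : ι, ∀ ε : ℝ, 0 < ε →
    ∃ B : Finset ι, o ∈ B ∧
      ∑ x ∈ B, (if a0 ≤ |P.a x| then min (w x) ‖ow P B x‖ else ‖ow P B x‖) ≤ ε

/-- the two vectors belonging to a site -/
noncomputable def ww (B : Finset ι) (p : ι × Bool) : L2 ι :=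
  if p.2 then (((√‖ow P B p.1‖)⁻¹ : ℝ) : ℂ) • ow P B p.1 else ((√‖ow P B p.1‖ : ℝ) : ℂ) • ee p.1

theorem norm_ww (B : Finset ι) (p : ι × Bool) : ‖ww P B p‖ ^ 2 = ‖ow P B p.1‖ := by
  unfold ww
  have h0 := norm_nonneg (ow P B p.1)
  split_ifs
  · rw [norm_smul, Complex.norm_real, Real.norm_eq_abs, mul_pow, sq_abs, inv_pow,
      Real.sq_sqrt h0]
    rcases h0.eq_or_lt with h | h
    · rw [← h]; simp
    · field_simp
  · rw [norm_smul, Complex.norm_real, Real.norm_eq_abs, mul_pow, sq_abs, Real.sq_sqrt h0, norm_ee]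
    ring

omit [DecidableEq ι] in
/-- weights which decrease so slowly that they know the exceptional sets -/
theorem exists_weight [Countable ι] (F : ℕ → Set ι) (hF : ∀ r, (F r).Finite) {M0 : ℝ}
    (hM0 : 0 < M0) : ∃ w : ι → ℝ, (∀ x, 0 < w x) ∧ Tendsto w cofinite (𝓝 0) ∧
      ∀ x, w x = M0 ∨ ∃ r : ℕ, w x = (1 / 2) ^ r ∧ x ∉ F r := by
  classical
  obtain ⟨en, hen⟩ := exists_injective_nat ι
  set G : ℕ → Set ι := fun r => (⋃ s ∈ Finset.range (r + 1), F s) ∪ {x | en x < r} with hG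
  have hGfin : ∀ r, (G r).Finite := by
    intro r
    refine (Set.Finite.biUnion (Finset.finite_toSet _) fun s _ => hF s).union ?_
    exact (Set.finite_lt_nat r).preimage hen.injOn
  have hGmono : ∀ r s, r ≤ s → G r ⊆ G s := by
    intro r s hrs x hx
    rcases hx with hx | hx
    · left
      simp only [mem_iUnion] at hx ⊢
      obtain ⟨i, hi, hx⟩ := hx
      exact ⟨i, Finset.mem_range.2 (by have := Finset.mem_range.1 hi; omega), hx⟩
    · right
      have hx' : en x < r := hx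
      exact lt_of_lt_of_le hx' hrs
  have hex : ∀ x, ∃ r, x ∈ G r := fun x => ⟨en x + 1, Or.inr (Nat.lt_succ_self _)⟩
  set r0 : ι → ℕ := fun x => Nat.find (hex x) with hr0
  have hr0m : ∀ x, x ∈ G (r0 x) := fun x => Nat.find_spec (hex x)
  have hr0n : ∀ x r, r < r0 x → x ∉ G r := fun x r h => Nat.find_min (hex x) h
  refine ⟨fun x => if r0 x = 0 then M0 else (1 / 2) ^ (r0 x - 1), fun x => ?_, ?_, fun x => ?_⟩
  · dsimp only
    split_ifs
    · exact hM0
    · positivity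
  · rw [Metric.tendsto_nhds]
    intro ε hε
    obtain ⟨r, hr⟩ := exists_pow_lt_of_lt_one hε (by norm_num : (1 / 2 : ℝ) < 1)
    rw [eventually_cofinite]
    refine (hGfin r).subset ?_
    intro x hx
    by_cases h0 : r0 x = 0
    · have h1 := hr0m x
      rw [h0] at h1
      exact hGmono 0 r (Nat.zero_le _) h1
    · by_cases h1 : r0 x ≤ r
      · exact hGmono _ _ h1 (hr0m x)
      · exfalso
        apply hx
        rw [if_neg h0, Real.dist_eq, sub_zero, abs_of_pos (by positivity)]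
        refine lt_of_le_of_lt ?_ hr
        exact pow_le_pow_of_le_one (by norm_num) (by norm_num) (by omega)
  · dsimp only
    by_cases h0 : r0 x = 0
    · left
      rw [if_pos h0]
    · right
      refine ⟨r0 x - 1, by rw [if_neg h0], fun h => ?_⟩
      apply hr0n x (r0 x - 1) (by omega)
      left
      simp only [mem_iUnion]
      exact ⟨r0 x - 1, Finset.mem_range.2 (Nat.lt_succ_self _), h⟩

variable [Countable ι]

theorem thin_small (ν : Measure ℝ) [IsProbabilityMeasure ν] (hK0 : 0 ≤ P.K)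
    (hK : ∀ᵐ v ∂ν, |v| ≤ P.K) (hν : ∀ r : ℝ, ν {r} ≠ 1) {a0 : ℝ} (ha0 : 0 < a0)
    (hthin : Thin P a0)
    {h : ι → ι → (ι → ℝ) × ℝ → ℂ} (hm : ∀ x y, Measurable (h x y))
    (hh : ∀ᵐ q ∂((PP ι ν).prod volume), ∀ x y,
      Tendsto (fun k => P.GG q.1 (zk k q.2) x y) atTop (𝓝 (h x y q)))
    (o : ι) {M : ℝ} (hM : 0 ≤ M) {ε : ℝ} (hε : 0 < ε) :
    LL ι ν M {q | ε < (h o o q).im} = 0 := by
  classical
  suffices hsuff : ∀ η : ℝ≥0, 0 < η → LL ι ν M {q | ε < (h o o q).im} ≤ η by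
    have h1 : LL ι ν M {q | ε < (h o o q).im} ≤ 0 := by
      apply ENNReal.le_of_forall_pos_le_add
      intro η hη _
      rw [zero_add]
      exact hsuff η hη
    exact nonpos_iff_eq_zero.1 h1
  intro η hη
  have hηe : (0 : ℝ≥0∞) < η := by exact_mod_cast hη
  -- the soft part
  obtain ⟨C1, hC10, hC1⟩ : ∃ C1 : ℝ, 0 < C1 ∧
      24 * ENNReal.ofReal (4 * tail 2 M C1) ≤ (η : ℝ≥0∞) / 2 := by
    have h1 : Tendsto (fun C => 24 * ENNReal.ofReal (4 * tail 2 M C)) atTop (𝓝 0) := by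
      have h2 : Tendsto (fun C => ENNReal.ofReal (4 * tail 2 M C)) atTop (𝓝 0) := by
        have := (ENNReal.continuous_ofReal.tendsto _).comp ((tail_tendsto 2 M).const_mul 4)
        rw [mul_zero, ENNReal.ofReal_zero] at this
        exact this
      have h3 := ENNReal.Tendsto.const_mul (a := 24) h2 (Or.inr (by norm_num))
      rw [mul_zero] at h3
      exact h3
    obtain ⟨C1, h2, h3⟩ := ((ENNReal.tendsto_nhds_zero.1 h1 _ (ENNReal.half_pos hηe.ne')).and
      (eventually_gt_atTop 0)).exists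
    exact ⟨C1, h3, h2⟩
  set κ : ℝ := √ε with hκ
  have hκ0 : 0 < κ := Real.sqrt_pos.2 hε
  have hκ2 : κ ^ 2 = ε := Real.sq_sqrt hε.le
  set l : ℝ := κ / (10 * (C1 + 1)) with hl
  have hl0 : 0 < l := by positivity
  have hlκ : 10 * l * (C1 + 1) ≤ κ := by
    rw [hl]
    apply le_of_eq
    field_simp
  -- the hard part, for each price
  set R : ℝ := ‖P.T‖ + 1 with hR
  have hprice : ∀ r : ℕ, ∃ C' : ℝ, 0 < C' ∧
      ENNReal.ofReal (4 * tail R M C') ≤ (η : ℝ≥0∞) / 4 * ENNReal.ofReal ((1 / 2) ^ r) := by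
    intro r
    have h1 : Tendsto (fun C => ENNReal.ofReal (4 * tail R M C)) atTop (𝓝 0) := by
      have := (ENNReal.continuous_ofReal.tendsto _).comp ((tail_tendsto R M).const_mul 4)
      rw [mul_zero, ENNReal.ofReal_zero] at this
      exact this
    have h0 : (0 : ℝ≥0∞) < (η : ℝ≥0∞) / 4 * ENNReal.ofReal ((1 / 2) ^ r) := by
      apply ENNReal.mul_pos
      · exact (ENNReal.div_pos hηe.ne' (by norm_num)).ne'
      · exact (ENNReal.ofReal_pos.2 (by positivity)).ne'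
    obtain ⟨C', h2, h3⟩ := ((ENNReal.tendsto_nhds_zero.1 h1 _ h0).and
      (eventually_gt_atTop 0)).exists
    exact ⟨C', h3, h2⟩
  choose C' hC'0 hC' using hprice
  set D : ℕ → ℝ := fun r => C' r + 1 with hD
  have hD0 : ∀ r, 0 < D r := fun r => by
    have := hC'0 r
    simp only [hD]
    linarith
  set δ : ℕ → ℝ := fun r => ε / 2 * (1 / 2) ^ r / D r with hδ
  have hδ0 : ∀ r, 0 < δ r := fun r => by
    have := hD0 r
    simp only [hδ]
    positivity
  have hδD : ∀ r, δ r * D r = ε / 2 * (1 / 2) ^ r := fun r => by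
    simp only [hδ]
    exact div_mul_cancel₀ _ (hD0 r).ne'
  set η1 : ℕ → ℝ≥0∞ := fun r => (η : ℝ≥0∞) / 4 * ENNReal.ofReal ((1 / 2) ^ r) with hη1
  have hη1pos : ∀ r, 0 < η1 r := by
    intro r
    apply ENNReal.mul_pos
    · exact (ENNReal.div_pos hηe.ne' (by norm_num)).ne'
    · exact (ENNReal.ofReal_pos.2 (by positivity)).ne'
  have hdec := fun r : ℕ => decay_LL P ν hK0 hK hν ha0 hm hh o hM (hδ0 r) (hη1pos r)
  simp only [eventually_cofinite] at hdec
  obtain ⟨w, hw0, hwt, hwr⟩ := exists_weight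
    (fun r => {x | ¬ (a0 ≤ |P.a x| → LL ι ν M {q | δ r ≤ ‖h o x q‖} ≤ η1 r)}) hdec
    (M0 := R) (by have := norm_nonneg P.T; rw [hR]; linarith)
  obtain ⟨B, hoB, hcost⟩ := hthin w hw0 hwt o (min 1 (l ^ 2 / 2)) (by positivity)
  set X : Finset ι := B.filter fun x => a0 ≤ |P.a x| ∧ w x < ‖ow P B x‖ with hX
  have hcost0 : ∀ x, 0 ≤ (if a0 ≤ |P.a x| then min (w x) ‖ow P B x‖ else ‖ow P B x‖) := by
    intro x
    split_ifs
    · exact le_min (hw0 x).le (norm_nonneg _)
    · exact norm_nonneg _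
  have hXw : ∑ x ∈ X, w x ≤ 1 := by
    calc ∑ x ∈ X, w x = ∑ x ∈ X, (if a0 ≤ |P.a x| then min (w x) ‖ow P B x‖ else ‖ow P B x‖) := by
          refine Finset.sum_congr rfl fun x hx => ?_
          obtain ⟨_, h1, h2⟩ := Finset.mem_filter.1 hx
          rw [if_pos h1, min_eq_left h2.le]
      _ ≤ _ := Finset.sum_le_sum_of_subset_of_nonneg (Finset.filter_subset _ _)
          fun x _ _ => hcost0 x
      _ ≤ 1 := hcost.trans (min_le_left _ _)
  have hleak : ∑ x ∈ B \ X, ‖ow P B x‖ ≤ l ^ 2 / 2 := by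
    calc ∑ x ∈ B \ X, ‖ow P B x‖ =
          ∑ x ∈ B \ X, (if a0 ≤ |P.a x| then min (w x) ‖ow P B x‖ else ‖ow P B x‖) := by
          refine Finset.sum_congr rfl fun x hx => ?_
          obtain ⟨h1, h2⟩ := Finset.mem_sdiff.1 hx
          split_ifs with h3
          · rw [min_eq_right]
            by_contra h4
            exact h2 (Finset.mem_filter.2 ⟨h1, h3, not_le.1 h4⟩)
          · rfl
      _ ≤ _ := Finset.sum_le_sum_of_subset_of_nonneg Finset.sdiff_subset
          fun x _ _ => hcost0 x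
      _ ≤ l ^ 2 / 2 := hcost.trans (min_le_right _ _)
  have hXr : ∀ x ∈ X, ∃ r : ℕ, w x = (1 / 2) ^ r ∧ LL ι ν M {q | δ r ≤ ‖h o x q‖} ≤ η1 r := by
    intro x hx
    obtain ⟨_, h1, h2⟩ := Finset.mem_filter.1 hx
    rcases hwr x with h3 | ⟨r, h3, h4⟩
    · exfalso
      have h5 := norm_ow P B x
      rw [h3, hR] at h2
      linarith
    · refine ⟨r, h3, ?_⟩
      by_contra h5
      apply h4
      intro h6
      exact h5 (h6 h1)
  choose! rr hrw hrL using hXr
  have hac : LL ι ν M ≪ (PP ι ν).prod volume := by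
    unfold LL
    exact Measure.AbsolutelyContinuous.rfl.prod
      (Measure.absolutelyContinuous_of_le Measure.restrict_le_self)
  have hh' := hac.ae_le hh
  choose g hgm hg using fun x : ι => P.exists_limV ν (ow P B x) (ee o)
  have hg' : ∀ᵐ q ∂(LL ι ν M), ∀ x : ι,
      Tendsto (fun j => inner ℂ (ow P B x) (Rz (P.H q.1) (zk j q.2) (ee o))) atTop
        (𝓝 (g x q)) := by
    rw [ae_all_iff]
    exact fun x => hac.ae_le (hg x)
  -- the boundary values of the soft family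
  set f : ι × Bool → (ι → ℝ) × ℝ → ℂ := fun p q =>
    if p.2 then (((√‖ow P B p.1‖)⁻¹ : ℝ) : ℂ) * g p.1 q
    else ((√‖ow P B p.1‖ : ℝ) : ℂ) * h p.1 o q with hf
  have hfm : ∀ p, Measurable (f p) := by
    intro p
    rw [hf]
    rcases p with ⟨x, b⟩
    cases b
    · simp only [Bool.false_eq_true, if_false]
      exact (hm x o).const_mul _
    · simp only [if_true]
      exact (hgm x).const_mul _
  set s : Finset (ι × Bool) := (B \ X) ×ˢ Finset.univ with hs
  have hsum : ∑ p ∈ s, ‖ww P B p‖ ^ 2 ≤ l ^ 2 := by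
    rw [hs, Finset.sum_product]
    have : ∀ x ∈ B \ X, ∑ b : Bool, ‖ww P B (x, b)‖ ^ 2 = 2 * ‖ow P B x‖ := by
      intro x _
      rw [Fintype.sum_bool, norm_ww, norm_ww]
      ring
    rw [Finset.sum_congr rfl this, ← Finset.mul_sum]
    linarith
  have hsoftset : LL ι ν M {q | κ ^ 2 < ∑ p ∈ s, ‖f p q‖ ^ 2} ≤ (η : ℝ≥0∞) / 2 := by
    refine (family_tail P ν hM hC10 hl0 hlκ s hsum o hfm ?_).trans hC1
    filter_upwards [hh', hg'] with q h1 h2 p _
    rw [hf]
    rcases p with ⟨x, b⟩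
    cases b
    · simp only [ww, Bool.false_eq_true, if_false]
      refine ((h1 x o).const_mul ((√‖ow P B x‖ : ℝ) : ℂ)).congr fun k => ?_
      rw [inner_smul_left, Complex.conj_ofReal, P.GG_inner]
    · simp only [ww, if_true]
      refine ((h2 x).const_mul (((√‖ow P B x‖)⁻¹ : ℝ) : ℂ)).congr fun k => ?_
      rw [inner_smul_left, Complex.conj_ofReal]
  have hsub : ({q | ε < (h o o q).im} : Set ((ι → ℝ) × ℝ)) ≤ᵐ[LL ι ν M]
      ((⋃ x ∈ X, ({q | δ (rr x) ≤ ‖h o x q‖} ∪ {q | D (rr x) < ‖g x q‖})) ∪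
        {q | κ ^ 2 < ∑ p ∈ s, ‖f p q‖ ^ 2} : Set _) := by
    filter_upwards [hh', hg'] with q hq hgq hlt
    have hlt' : ε < (h o o q).im := hlt
    by_contra hcon
    have hcon1 : ∀ x ∈ X, ‖h o x q‖ < δ (rr x) ∧ ‖g x q‖ ≤ D (rr x) := by
      intro x hx
      by_contra h2
      apply hcon
      left
      change q ∈ ⋃ x ∈ X, ({q | δ (rr x) ≤ ‖h o x q‖} ∪ {q | D (rr x) < ‖g x q‖})
      rw [mem_iUnion₂]
      refine ⟨x, hx, ?_⟩
      by_cases h3 : δ (rr x) ≤ ‖h o x q‖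
      · exact Or.inl h3
      · right
        rw [not_le] at h3
        by_contra h4
        exact h2 ⟨h3, not_lt.1 h4⟩
    have hcon2 : ∑ p ∈ s, ‖f p q‖ ^ 2 ≤ ε := by
      by_contra h2
      apply hcon
      right
      change κ ^ 2 < ∑ p ∈ s, ‖f p q‖ ^ 2
      rw [hκ2]
      exact not_le.1 h2
    have hsym : ∀ x, h o x q = h x o q := by
      intro x
      refine tendsto_nhds_unique (hq o x) ((hq x o).congr fun k => ?_)
      exact P.GG_symm q.1 (zk_im_pos k q.2).ne' x o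
    set X' : Finset ι := B.filter fun x => ∃ y, y ∉ B ∧ (P.T (ee x)) y ≠ 0 with hX'
    have hdoors : Doors P B X' := by
      intro x
      rw [hX', Finset.mem_filter]
    have hfl := flux_lim P (h := fun x y => h x y q) (fun x y => hq x y) hdoors hoB
      (g := fun x => g x q) (fun x => hgq x)
    have hfl2 : (h o o q).im ≤ ∑ x ∈ B, ‖h o x q‖ * ‖g x q‖ :=
      hfl.trans (Finset.sum_le_sum_of_subset_of_nonneg (Finset.filter_subset _ _)
        fun x _ _ => by positivity)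
    have hsplit : ∑ x ∈ B, ‖h o x q‖ * ‖g x q‖ ≤
        ∑ x ∈ X, ‖h o x q‖ * ‖g x q‖ + ∑ x ∈ B \ X, ‖h o x q‖ * ‖g x q‖ := by
      have h1 : B ⊆ X ∪ (B \ X) := by
        intro x hx
        by_cases h : x ∈ X
        · exact Finset.mem_union_left _ h
        · exact Finset.mem_union_right _ (Finset.mem_sdiff.2 ⟨hx, h⟩)
      refine (Finset.sum_le_sum_of_subset_of_nonneg h1 fun x _ _ => by positivity).trans ?_
      rw [Finset.sum_union (Finset.disjoint_sdiff)]
    have hX1 : ∑ x ∈ X, ‖h o x q‖ * ‖g x q‖ ≤ ε / 2 := by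
      calc ∑ x ∈ X, ‖h o x q‖ * ‖g x q‖ ≤ ∑ x ∈ X, ε / 2 * w x := by
            refine Finset.sum_le_sum fun x hx => ?_
            rw [hrw x hx, ← hδD]
            exact mul_le_mul (hcon1 x hx).1.le (hcon1 x hx).2 (norm_nonneg _) (hδ0 _).le
        _ = ε / 2 * ∑ x ∈ X, w x := by rw [Finset.mul_sum]
        _ ≤ ε / 2 * 1 := mul_le_mul_of_nonneg_left hXw (by positivity)
        _ = ε / 2 := mul_one _
    have hX2 : ∑ x ∈ B \ X, ‖h o x q‖ * ‖g x q‖ ≤ (∑ p ∈ s, ‖f p q‖ ^ 2) / 2 := by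
      rw [hs, Finset.sum_product, Finset.sum_div]
      refine Finset.sum_le_sum fun x _ => ?_
      rw [Fintype.sum_bool, hf]
      simp only [if_true, Bool.false_eq_true, if_false]
      rw [hsym x]
      rcases (norm_nonneg (ow P B x)).eq_or_lt with h0 | h0
      · have h8 : ow P B x = 0 := norm_eq_zero.1 h0.symm
        have h9 : g x q = 0 := by
          refine tendsto_nhds_unique (hgq x) ?_
          rw [h8]
          simp only [inner_zero_left]
          exact tendsto_const_nhds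
        rw [h9, norm_zero, mul_zero]
        positivity
      · have h10 : 0 < √‖ow P B x‖ := Real.sqrt_pos.2 h0
        rw [norm_mul, norm_mul, Complex.norm_real, Complex.norm_real, Real.norm_eq_abs,
          Real.norm_eq_abs, abs_of_pos h10, abs_of_pos (inv_pos.2 h10)]
        set r := √‖ow P B x‖
        have h11 : ‖h x o q‖ * ‖g x q‖ = (r * ‖h x o q‖) * (r⁻¹ * ‖g x q‖) := by
          field_simp
        rw [h11]
        nlinarith [sq_nonneg (r * ‖h x o q‖ - r⁻¹ * ‖g x q‖)]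
    linarith
  refine (measure_mono_ae hsub).trans ((measure_union_le _ _).trans ?_)
  have hterm : ∀ x ∈ X, LL ι ν M ({q | δ (rr x) ≤ ‖h o x q‖} ∪ {q | D (rr x) < ‖g x q‖}) ≤
      (η : ℝ≥0∞) / 2 * ENNReal.ofReal (w x) := by
    intro x hx
    have e : (η : ℝ≥0∞) / 2 * ENNReal.ofReal (w x) = η1 (rr x) + η1 (rr x) := by
      simp only [hη1]
      rw [hrw x hx, ← add_mul]
      congr 1
      have h4 : (η : ℝ≥0∞) / 4 = (η : ℝ≥0∞) / 2 / 2 := by
        rw [div_eq_mul_inv, div_eq_mul_inv, div_eq_mul_inv, mul_assoc,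
          ← ENNReal.mul_inv (by norm_num) (by norm_num)]
        norm_num
      rw [h4, ENNReal.add_halves]
    rw [e]
    refine (measure_union_le _ _).trans (add_le_add ?_ ?_)
    · exact hrL x hx
    · have hR' : ‖ow P B x‖ + ‖(ee o : L2 ι)‖ ≤ R := by
        rw [norm_ee, hR]
        linarith [norm_ow P B x]
      refine (lim_tail P ν hM (hC'0 (rr x)) hR' ?_).trans (hC' (rr x))
      filter_upwards [hg'] with q hq
      exact hq x
  have hhard : LL ι ν M (⋃ x ∈ X, ({q | δ (rr x) ≤ ‖h o x q‖} ∪ {q | D (rr x) < ‖g x q‖})) ≤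
      (η : ℝ≥0∞) / 2 := by
    calc LL ι ν M (⋃ x ∈ X, ({q | δ (rr x) ≤ ‖h o x q‖} ∪ {q | D (rr x) < ‖g x q‖}))
        ≤ ∑ x ∈ X, LL ι ν M ({q | δ (rr x) ≤ ‖h o x q‖} ∪ {q | D (rr x) < ‖g x q‖}) :=
          measure_biUnion_finset_le _ _
      _ ≤ ∑ x ∈ X, (η : ℝ≥0∞) / 2 * ENNReal.ofReal (w x) := Finset.sum_le_sum hterm
      _ = (η : ℝ≥0∞) / 2 * ENNReal.ofReal (∑ x ∈ X, w x) := by
          rw [← Finset.mul_sum, ENNReal.ofReal_sum_of_nonneg fun x _ => (hw0 x).le]
      _ ≤ (η : ℝ≥0∞) / 2 * ENNReal.ofReal 1 := by gcongr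
      _ = (η : ℝ≥0∞) / 2 := by rw [ENNReal.ofReal_one, mul_one]
  calc _ ≤ (η : ℝ≥0∞) / 2 + (η : ℝ≥0∞) / 2 := add_le_add hhard hsoftset
    _ = (η : ℝ≥0∞) := ENNReal.add_halves _

theorem thin_main (ν : Measure ℝ) [IsProbabilityMeasure ν] (hK0 : 0 ≤ P.K)
    (hK : ∀ᵐ v ∂ν, |v| ≤ P.K) (hν : ∀ r : ℝ, ν {r} ≠ 1) {a0 : ℝ} (ha0 : 0 < a0)
    (hthin : Thin P a0) : ∀ᵐ V ∂(PP ι ν), Sing (P.H V) := by
  obtain ⟨h, hm, hh⟩ := P.exists_lim ν
  have hall : ∀ o : ι, ∀ᵐ q ∂((PP ι ν).prod volume), (h o o q).im ≤ 0 := by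
    intro o
    rw [ae_iff]
    have hset : {q : (ι → ℝ) × ℝ | ¬ (h o o q).im ≤ 0} ⊆ ⋃ n : ℕ, ⋃ N : ℕ,
        ({q | 1 / ((n : ℝ) + 1) < (h o o q).im} ∩ (univ ×ˢ Icc (-(N : ℝ)) N)) := by
      intro q hq
      have hq' : 0 < (h o o q).im := not_le.1 hq
      obtain ⟨n, hn⟩ := exists_nat_one_div_lt hq'
      obtain ⟨N, hN⟩ := exists_nat_gt |q.2|
      rw [mem_iUnion]
      refine ⟨n, ?_⟩
      rw [mem_iUnion]
      exact ⟨N, hn, mem_univ _, (abs_lt.1 hN).1.le, (abs_lt.1 hN).2.le⟩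
    refine measure_mono_null hset ?_
    rw [measure_iUnion_null_iff]
    intro n
    rw [measure_iUnion_null_iff]
    intro N
    have h1 := thin_small P ν hK0 hK hν ha0 hthin hm hh o (Nat.cast_nonneg N)
      (ε := 1 / ((n : ℝ) + 1)) (by positivity)
    have hS : MeasurableSet {q : (ι → ℝ) × ℝ | 1 / ((n : ℝ) + 1) < (h o o q).im} :=
      measurableSet_lt measurable_const (Complex.measurable_im.comp (hm o o))
    have h2 : LL ι ν N = ((PP ι ν).prod volume).restrict (univ ×ˢ Icc (-(N : ℝ)) N) := by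
      unfold LL
      rw [← Measure.prod_restrict, Measure.restrict_univ]
    rw [h2, Measure.restrict_apply hS] at h1
    exact h1
  have hall' : ∀ᵐ q ∂((PP ι ν).prod volume), ∀ o, (h o o q).im ≤ 0 := by
    rw [ae_all_iff]
    exact hall
  have h3 := Measure.ae_ae_of_ae_prod (hh.and hall')
  filter_upwards [h3] with V hV
  refine no_ac P (h := fun x E => h x x (V, E)) ?_
  filter_upwards [hV] with E hE x
  exact ⟨hE.1 x x, hE.2 x⟩

end Pool.Agent.Q291.SB
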